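import Pool.Agent.Helper70.Matching.Defs

/-! Algebra of matchings (packet B1).  helper70. -/

set_option autoImplicit false
open Finset

namespace Pool.Agent.Helper70.Matching

variable {E : Type} [PseudoMetricSpace E]

theorem PM.even {P : Multiset E} {c : ℝ} (h : PM P c) : Even (Multiset.card P) := by
  induction h with
  | nil => simp
  | cons x y h ih =>
    simp only [Multiset.card_cons]
    rw [show ∀ n : ℕ, n + 1 + 1 = n + 2 from fun n => rfl]
    exact ih.add (by decide)

theorem PM.nonneg {P : Multiset E} {c : ℝ} (h : PM P c) : 0 ≤ c := by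
  induction h with
  | nil => exact le_rfl
  | cons x y h ih => exact add_nonneg dist_nonneg ih

theorem PM.cast {P Q : Multiset E} {c d : ℝ} (h : PM P c) (hP : P = Q) (hc : c = d) : PM Q d := by
  subst hP; subst hc; exact h

theorem exists_PM (P : Multiset E) (h : Even (Multiset.card P)) : ∃ c, PM P c := by
  obtain ⟨n, hn⟩ := h
  induction n generalizing P with
  | zero =>
    have : P = 0 := Multiset.card_eq_zero.mp (by simpa using hn)
    exact ⟨0, this ▸ PM.nil⟩
  | succ n ih =>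
    have h1 : 0 < Multiset.card P := by omega
    obtain ⟨x, hx⟩ := Multiset.card_pos_iff_exists_mem.mp h1
    obtain ⟨P', rfl⟩ := Multiset.exists_cons_of_mem hx
    rw [Multiset.card_cons] at hn
    have h2 : 0 < Multiset.card P' := by omega
    obtain ⟨y, hy⟩ := Multiset.card_pos_iff_exists_mem.mp h2
    obtain ⟨P'', rfl⟩ := Multiset.exists_cons_of_mem hy
    rw [Multiset.card_cons] at hn
    obtain ⟨c, hc⟩ := ih P'' (by omega)
    exact ⟨_, PM.cons x y hc⟩

theorem PM.add {P Q : Multiset E} {c d : ℝ} (h : PM P c) (h' : PM Q d) : PM (P + Q) (c + d) := by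
  induction h with
  | nil => simpa using h'
  | cons x y h ih =>
    refine (PM.cons x y ih).cast ?_ ?_
    · simp [Multiset.cons_add]
    · ring

/-- the partner of a given point -/
theorem PM.extract {P : Multiset E} {c : ℝ} (h : PM P c) :
    ∀ (x : E) (Q : Multiset E), P = x ::ₘ Q →
      ∃ (y : E) (Q' : Multiset E) (c' : ℝ), Q = y ::ₘ Q' ∧ PM Q' c' ∧ c = dist x y + c' := by
  induction h with
  | nil => intro x Q h; exact absurd h.symm (Multiset.cons_ne_zero)
  | cons a b h ih =>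
    rename_i P c
    intro x Q hQ
    rw [Multiset.cons_eq_cons] at hQ
    rcases hQ with ⟨rfl, rfl⟩ | ⟨hne, R, hR, hQ⟩
    · exact ⟨b, P, c, rfl, h, rfl⟩
    · -- b :: P = x :: R, Q = a :: R
      rw [Multiset.cons_eq_cons] at hR
      rcases hR with ⟨rfl, rfl⟩ | ⟨hne', R', hR', hR''⟩
      · exact ⟨a, P, c, hQ, h, by rw [dist_comm]⟩
      · -- P = x :: R', R = b :: R'
        obtain ⟨y, Q', c', hy, hQ', hc⟩ := ih x R' hR'
        refine ⟨y, a ::ₘ b ::ₘ Q', dist a b + c', ?_, PM.cons a b hQ', ?_⟩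
        · rw [hQ, hR'', hy, Multiset.cons_swap y a, Multiset.cons_swap y b]
        · rw [hc]; ring

/-- removal of a pair -/
theorem PM.remove {P : Multiset E} {x y : E} {c : ℝ} (h : PM (x ::ₘ y ::ₘ P) c) :
    ∃ c' ≤ c + dist x y, PM P c' := by
  obtain ⟨a, Q, c₁, h1, h2, h3⟩ := h.extract x _ rfl
  -- y :: P = a :: Q
  rw [Multiset.cons_eq_cons] at h1
  rcases h1 with ⟨rfl, rfl⟩ | ⟨hne, R, hR, hQ⟩
  · refine ⟨c₁, ?_, h2⟩
    have := dist_nonneg (x := x) (y := y)
    linarith
  · -- P = a :: R, Q = y :: R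
    obtain ⟨b, R', c₂, h4, h5, h6⟩ := h2.extract y _ hQ
    refine ⟨dist a b + c₂, ?_, ?_⟩
    · have h7 : dist a b ≤ dist a x + dist x y + dist y b :=
        (dist_triangle a x b).trans (by linarith [dist_triangle x y b])
      rw [h3, h6, dist_comm x a]
      have := dist_nonneg (x := x) (y := y)
      linarith
    · rw [hR, h4]; exact PM.cons a b h5

/-- removal of a doubled multiset -/
theorem PM.remove_double {P Z : Multiset E} {c : ℝ} (h : PM (P + Z + Z) c) : ∃ c' ≤ c, PM P c' := by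
  induction Z using Multiset.induction_on generalizing c with
  | empty => exact ⟨c, le_rfl, by simpa using h⟩
  | cons z Z ih =>
    have h' : PM (z ::ₘ z ::ₘ (P + Z + Z)) c := by
      refine h.cast ?_ rfl
      simp only [Multiset.add_cons, Multiset.cons_add]
    obtain ⟨c', hc', hP⟩ := h'.remove
    rw [dist_self, add_zero] at hc'
    obtain ⟨c'', hc'', hP'⟩ := ih hP
    exact ⟨c'', hc''.trans hc', hP'⟩

/-- chaining matchings -/
theorem PM.chain {P Q Z : Multiset E} {c d : ℝ} (h : PM (P + Z) c) (h' : PM (Z + Q) d) :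
    ∃ e ≤ c + d, PM (P + Q) e := by
  have h1 : PM (P + Q + Z + Z) (c + d) := by
    refine (h.add h').cast ?_ rfl
    abel
  exact h1.remove_double

/-- image under a `1`-Lipschitz map -/
theorem PM.map_lip {E' : Type} [PseudoMetricSpace E'] (f : E → E')
    (hf : ∀ x y, dist (f x) (f y) ≤ dist x y) {P : Multiset E} {c : ℝ} (h : PM P c) :
    ∃ c' ≤ c, PM (P.map f) c' := by
  induction h with
  | nil => exact ⟨0, le_rfl, by simpa using PM.nil⟩
  | cons x y h ih =>
    obtain ⟨c', hc', h'⟩ := ih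
    refine ⟨dist (f x) (f y) + c', add_le_add (hf x y) hc', ?_⟩
    simp only [Multiset.map_cons]
    exact PM.cons _ _ h'

/-- moving one point -/
theorem PM.move_one {P : Multiset E} {x : E} {c : ℝ} (h : PM (x ::ₘ P) c) (y : E) :
    ∃ c' ≤ c + dist x y, PM (y ::ₘ P) c' := by
  obtain ⟨a, Q, c₁, h1, h2, h3⟩ := h.extract x _ rfl
  refine ⟨dist y a + c₁, ?_, by rw [h1]; exact PM.cons y a h2⟩
  rw [h3]
  have := dist_triangle y x a
  rw [dist_comm y x] at this
  linarith

/-- moving all points -/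
theorem PM.move {ι : Type} (s : Multiset ι) (f g : ι → E) (R : Multiset E) {c : ℝ}
    (h : PM (s.map f + R) c) :
    ∃ c' ≤ c + (s.map (fun i => dist (f i) (g i))).sum, PM (s.map g + R) c' := by
  induction s using Multiset.induction_on generalizing R c with
  | empty => exact ⟨c, by simp, by simpa using h⟩
  | cons i s ih =>
    simp only [Multiset.map_cons, Multiset.cons_add, Multiset.sum_cons] at h ⊢
    obtain ⟨c₁, hc₁, h1⟩ := h.move_one (g i)
    have h2 : PM (s.map f + (g i ::ₘ R)) c₁ := h1.cast (by simp [Multiset.add_cons]) rfl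
    obtain ⟨c₂, hc₂, h3⟩ := ih _ h2
    exact ⟨c₂, by linarith, h3.cast (by simp [Multiset.add_cons]) rfl⟩

/-! ### The functional `MF` -/

theorem MF_bddBelow (B : Set E) (P : Multiset E) :
    BddBelow {c | ∃ Z : Multiset E, (∀ z ∈ Z, z ∈ B) ∧ PM (P + Z) c} :=
  ⟨0, by rintro c ⟨Z, _, h⟩; exact h.nonneg⟩

theorem MF_nonneg (B : Set E) (P : Multiset E) : 0 ≤ MF B P :=
  Real.sInf_nonneg (by rintro c ⟨Z, _, h⟩; exact h.nonneg)

theorem MF_le {B : Set E} {P Z : Multiset E} {c : ℝ} (hZ : ∀ z ∈ Z, z ∈ B) (h : PM (P + Z) c) :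
    MF B P ≤ c :=
  csInf_le (MF_bddBelow B P) ⟨Z, hZ, h⟩

theorem MF_approx {B : Set E} {P : Multiset E} (h : B.Nonempty ∨ Even (Multiset.card P)) {ε : ℝ}
    (hε : 0 < ε) :
    ∃ (Z : Multiset E) (c : ℝ), (∀ z ∈ Z, z ∈ B) ∧ PM (P + Z) c ∧ c < MF B P + ε := by
  have hne : {c | ∃ Z : Multiset E, (∀ z ∈ Z, z ∈ B) ∧ PM (P + Z) c}.Nonempty := by
    by_cases hP : Even (Multiset.card P)
    · obtain ⟨c, hc⟩ := exists_PM P hP
      exact ⟨c, 0, by simp, by simpa using hc⟩
    · rcases h with ⟨z, hz⟩ | h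
      · obtain ⟨c, hc⟩ := exists_PM (P + {z}) (by
          rw [Multiset.card_add, Multiset.card_singleton]
          exact (Nat.not_even_iff_odd.mp hP).add_odd odd_one)
        exact ⟨c, {z}, by simpa using hz, hc⟩
      · exact absurd h hP
  obtain ⟨c, ⟨Z, hZ, hc⟩, hlt⟩ := exists_lt_of_csInf_lt hne (show sInf _ < MF B P + ε by
    unfold MF; linarith)
  exact ⟨Z, c, hZ, hc, hlt⟩

end Pool.Agent.Helper70.Matching
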