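import Pool.Agent.Helper70.Matching.Defs

set_option autoImplicit false
set_option linter.unusedSectionVars false
set_option linter.unusedSimpArgs false
open Finset

namespace Pool.Agent.Helper70.Matching

noncomputable section

section general
variable {K α E : Type} [Fintype K] [DecidableEq K] [Fintype α] [AddCommGroup E] [Module ℝ E]
  {w : K → α → ℝ}

lemma PW_nonneg (hw : IsWt w) (u : K → α) : 0 ≤ PW w u := prod_nonneg fun k _ => hw.nonneg k _

lemma sum_PW (hw : IsWt w) : ∑ u, PW w u = 1 := by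
  have h := Finset.prod_univ_sum (fun _ : K => (univ : Finset α)) (fun k a => w k a)
  rw [Fintype.piFinset_univ] at h
  simp only [hw.sum_one, prod_const_one] at h
  exact h.symm

lemma Ex_add (f g : (K → α) → E) : Ex w (fun u => f u + g u) = Ex w f + Ex w g := by
  simp [Ex, smul_add, sum_add_distrib]

lemma Ex_sub (f g : (K → α) → E) : Ex w (fun u => f u - g u) = Ex w f - Ex w g := by
  simp [Ex, smul_sub, sum_sub_distrib]

lemma Ex_neg (f : (K → α) → E) : Ex w (fun u => - f u) = - Ex w f := by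
  simp [Ex]

lemma Ex_smul (c : ℝ) (f : (K → α) → E) : Ex w (fun u => c • f u) = c • Ex w f := by
  simp only [Ex, smul_sum]
  exact sum_congr rfl fun u _ => smul_comm _ _ _

lemma Ex_mul_left (c : ℝ) (f : (K → α) → ℝ) : Ex w (fun u => c * f u) = c * Ex w f :=
  Ex_smul c f

lemma Ex_mul_right (c : ℝ) (f : (K → α) → ℝ) : Ex w (fun u => f u * c) = Ex w f * c := by
  simp only [mul_comm _ c]; exact Ex_smul c f

lemma Ex_mul_left' (c : ℂ) (f : (K → α) → ℂ) : Ex w (fun u => c * f u) = c * Ex w f := by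
  simp only [Ex, mul_sum]
  exact sum_congr rfl fun u _ => by rw [mul_smul_comm]

lemma Ex_const (hw : IsWt w) (c : E) : Ex w (fun _ => c) = c := by
  simp only [Ex, ← sum_smul, sum_PW hw, one_smul]

lemma Ex_sum {ι : Type} (s : Finset ι) (f : ι → (K → α) → E) :
    Ex w (fun u => ∑ i ∈ s, f i u) = ∑ i ∈ s, Ex w (f i) := by
  simp only [Ex, smul_sum]
  exact sum_comm

lemma Ex_mono (hw : IsWt w) {f g : (K → α) → ℝ} (h : ∀ u, f u ≤ g u) : Ex w f ≤ Ex w g :=
  sum_le_sum fun u _ => mul_le_mul_of_nonneg_left (h u) (PW_nonneg hw u)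

lemma Ex_nonneg (hw : IsWt w) {f : (K → α) → ℝ} (h : ∀ u, 0 ≤ f u) : 0 ≤ Ex w f :=
  sum_nonneg fun u _ => mul_nonneg (PW_nonneg hw u) (h u)

lemma Ex_le_of_le (hw : IsWt w) {f : (K → α) → ℝ} {c : ℝ} (h : ∀ u, f u ≤ c) : Ex w f ≤ c := by
  have := Ex_mono hw h
  rwa [Ex_const hw] at this

lemma le_Ex_of_le (hw : IsWt w) {f : (K → α) → ℝ} {c : ℝ} (h : ∀ u, c ≤ f u) : c ≤ Ex w f := by
  have := Ex_mono hw h
  rwa [Ex_const hw] at this

lemma norm_Ex_le (hw : IsWt w) (f : (K → α) → ℂ) : ‖Ex w f‖ ≤ Ex w (fun u => ‖f u‖) := by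
  unfold Ex
  refine (norm_sum_le _ _).trans (sum_le_sum fun u _ => ?_)
  rw [norm_smul, Real.norm_of_nonneg (PW_nonneg hw u)]
  rfl

lemma abs_Ex_le (hw : IsWt w) (f : (K → α) → ℝ) : |Ex w f| ≤ Ex w (fun u => |f u|) := by
  unfold Ex
  refine (abs_sum_le_sum_abs _ _).trans (sum_le_sum fun u _ => ?_)
  rw [smul_eq_mul, abs_mul, abs_of_nonneg (PW_nonneg hw u)]
  rfl

/-- Cauchy-Schwarz / Jensen: `(E f)² ≤ E f²`. -/
lemma sq_Ex_le (hw : IsWt w) (f : (K → α) → ℝ) : (Ex w f) ^ 2 ≤ Ex w (fun u => (f u) ^ 2) := by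
  have h : 0 ≤ Ex w (fun u => (f u - Ex w f) ^ 2) := Ex_nonneg hw fun u => sq_nonneg _
  have h2 : Ex w (fun u => (f u - Ex w f) ^ 2) = Ex w (fun u => (f u) ^ 2) - (Ex w f) ^ 2 := by
    have : ∀ u, (f u - Ex w f) ^ 2 = (f u) ^ 2 + ((-2 * Ex w f) * f u + (Ex w f) ^ 2) := by
      intro u; ring
    simp only [this]
    rw [Ex_add, Ex_add, Ex_mul_left, Ex_const hw]
    ring
  linarith

lemma Vr_eq (hw : IsWt w) (f : (K → α) → ℝ) : Vr w f = Ex w (fun u => (f u) ^ 2) - (Ex w f) ^ 2 := by
  unfold Vr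
  have : ∀ u, (f u - Ex w f) ^ 2 = (f u) ^ 2 + ((-2 * Ex w f) * f u + (Ex w f) ^ 2) := by
    intro u; ring
  simp only [this]
  rw [Ex_add, Ex_add, Ex_mul_left, Ex_const hw]
  ring

lemma Vr_nonneg (hw : IsWt w) (f : (K → α) → ℝ) : 0 ≤ Vr w f := Ex_nonneg hw fun _ => sq_nonneg _

lemma cauchy_Ex (hw : IsWt w) (f g : (K → α) → ℝ) :
    (Ex w (fun u => f u * g u)) ^ 2 ≤ Ex w (fun u => (f u) ^ 2) * Ex w (fun u => (g u) ^ 2) := by
  unfold Ex
  simp only [smul_eq_mul]
  refine Finset.sum_sq_le_sum_mul_sum_of_sq_le_mul _ (fun u _ => ?_) (fun u _ => ?_) (fun u _ => ?_)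
  · exact mul_nonneg (PW_nonneg hw u) (sq_nonneg _)
  · exact mul_nonneg (PW_nonneg hw u) (sq_nonneg _)
  · exact le_of_eq (by ring)

lemma piecewise_swap_invol (A : Finset K) (u v : K → α) :
    A.piecewise (A.piecewise u v) (A.piecewise v u) = u := by
  funext k; by_cases hk : k ∈ A <;> simp [Finset.piecewise, hk]

lemma PW_swap (A : Finset K) (u v : K → α) :
    PW w (A.piecewise u v) * PW w (A.piecewise v u) = PW w u * PW w v := by
  unfold PW
  rw [← prod_mul_distrib, ← prod_mul_distrib]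
  refine prod_congr rfl fun k _ => ?_
  by_cases hk : k ∈ A
  · simp [Finset.piecewise, hk]
  · simp [Finset.piecewise, hk, mul_comm]

/-- the basic exchange identity -/
lemma sum_swap (A : Finset K) (F : (K → α) → (K → α) → E) :
    ∑ u, ∑ v, (PW w u * PW w v) • F (A.piecewise u v) (A.piecewise v u)
      = ∑ u, ∑ v, (PW w u * PW w v) • F u v := by
  rw [← Fintype.sum_prod_type', ← Fintype.sum_prod_type']
  let e : (K → α) × (K → α) ≃ (K → α) × (K → α) :=
    { toFun := fun x => (A.piecewise x.1 x.2, A.piecewise x.2 x.1)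
      invFun := fun x => (A.piecewise x.1 x.2, A.piecewise x.2 x.1)
      left_inv := fun x => by
        ext1 <;> exact piecewise_swap_invol A _ _
      right_inv := fun x => by
        ext1 <;> exact piecewise_swap_invol A _ _ }
  rw [← Equiv.sum_comp e (fun x : (K → α) × (K → α) => (PW w x.1 * PW w x.2) • F x.1 x.2)]
  refine sum_congr rfl fun x _ => ?_
  show _ = (PW w (A.piecewise x.1 x.2) * PW w (A.piecewise x.2 x.1)) • _
  rw [PW_swap]
  rfl

lemma Ex_PE (hw : IsWt w) (A : Finset K) (f : (K → α) → E) : Ex w (PE w A f) = Ex w f := by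
  have h := sum_swap (w := w) A (fun u _ => f u)
  unfold PE Ex
  simp only [smul_sum, smul_smul]
  rw [h]
  simp only [← sum_smul, ← mul_sum, sum_PW hw, mul_one]

lemma PE_PE (hw : IsWt w) (A B : Finset K) (f : (K → α) → E) :
    PE w A (PE w B f) = PE w (A ∩ B) f := by
  funext u
  have h1 : ∀ v v' : K → α, B.piecewise (A.piecewise u v) v'
      = (A ∩ B).piecewise u (B.piecewise v v') := by
    intro v v'; funext k
    by_cases hA : k ∈ A <;> by_cases hB : k ∈ B <;> simp [Finset.piecewise, hA, hB]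
  have h2 := Ex_PE hw B (fun x => f ((A ∩ B).piecewise u x))
  unfold PE at h2 ⊢
  simp only [h1]
  exact h2

lemma PE_const (hw : IsWt w) (A : Finset K) (c : E) : PE w A (fun _ => c) = fun _ => c := by
  funext u; exact Ex_const hw c

lemma PE_empty (f : (K → α) → E) (u : K → α) : PE w ∅ f u = Ex w f := by
  unfold PE; simp

lemma PE_univ (hw : IsWt w) (f : (K → α) → E) : PE w univ f = f := by
  funext u; unfold PE; simp [Ex_const hw]

lemma PE_dependsOn (A : Finset K) (f : (K → α) → E) : DependsOn (PE w A f) (A : Set K) := by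
  intro x y hxy
  unfold PE
  congr 1; funext v
  congr 1; funext k
  by_cases hk : k ∈ A
  · simp [Finset.piecewise, hk, hxy k (by simpa using hk)]
  · simp [Finset.piecewise, hk]

lemma PE_eq_self (hw : IsWt w) {A : Finset K} {f : (K → α) → E} (hf : DependsOn f (A : Set K)) :
    PE w A f = f := by
  funext u; unfold PE
  have : (fun v => f (A.piecewise u v)) = fun _ => f u := by
    funext v; refine hf fun k hk => ?_
    have hk' : k ∈ A := by simpa using hk
    simp [Finset.piecewise, hk']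
  rw [this, Ex_const hw]

/-- pulling out an `A`-measurable factor -/
lemma PE_mul_of_dependsOn {A : Finset K} {f : (K → α) → ℝ} (g : (K → α) → ℝ)
    (hf : DependsOn f (A : Set K)) :
    PE w A (fun u => f u * g u) = fun u => f u * PE w A g u := by
  funext u; unfold PE
  have : (fun v => f (A.piecewise u v) * g (A.piecewise u v)) = fun v => f u * g (A.piecewise u v) := by
    funext v
    have : f (A.piecewise u v) = f u := hf fun k hk => by
      have hk' : k ∈ A := by simpa using hk
      simp [Finset.piecewise, hk']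
    rw [this]
  rw [this, Ex_mul_left]

lemma Ex_mul_PE (hw : IsWt w) {A : Finset K} {f : (K → α) → ℝ} (g : (K → α) → ℝ)
    (hf : DependsOn f (A : Set K)) :
    Ex w (fun u => f u * PE w A g u) = Ex w (fun u => f u * g u) := by
  rw [← Ex_PE hw A (fun u => f u * g u), PE_mul_of_dependsOn g hf]

lemma PE_sub (A : Finset K) (f g : (K → α) → E) :
    PE w A (fun u => f u - g u) = fun u => PE w A f u - PE w A g u := by
  funext u; unfold PE; exact Ex_sub _ _

lemma PE_add (A : Finset K) (f g : (K → α) → E) :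
    PE w A (fun u => f u + g u) = fun u => PE w A f u + PE w A g u := by
  funext u; unfold PE; exact Ex_add _ _

lemma PE_sum {ι : Type} (A : Finset K) (s : Finset ι) (f : ι → (K → α) → E) :
    PE w A (fun u => ∑ i ∈ s, f i u) = fun u => ∑ i ∈ s, PE w A (f i) u := by
  funext u; unfold PE; exact Ex_sum _ _

/-- contraction -/
lemma Ex_sq_PE_le (hw : IsWt w) (A : Finset K) (f : (K → α) → ℝ) :
    Ex w (fun u => (PE w A f u) ^ 2) ≤ Ex w (fun u => (f u) ^ 2) := by
  rw [← Ex_PE hw A (fun u => (f u) ^ 2)]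
  exact Ex_mono hw fun u => sq_Ex_le hw _

/-! ### Independence -/

section mul
variable {F : Type} [CommRing F] [Algebra ℝ F]

lemma Ex_mul_of_disjoint (hw : IsWt w) {A B : Finset K} (hAB : Disjoint A B)
    {f g : (K → α) → F} (hf : DependsOn f (A : Set K)) (hg : DependsOn g (B : Set K)) :
    Ex w (fun u => f u * g u) = Ex w f * Ex w g := by
  have h := sum_swap (w := w) A (fun u _ => f u * g u)
  have h1 : ∀ u v : K → α, f (A.piecewise u v) = f u := fun u v => hf fun k hk => by
    have hk' : k ∈ A := by simpa using hk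
    simp [Finset.piecewise, hk']
  have h2 : ∀ u v : K → α, g (A.piecewise u v) = g v := fun u v => hg fun k hk => by
    have hk' : k ∈ B := by simpa using hk
    have hk2 : k ∉ A := fun hA => (Finset.disjoint_left.mp hAB hA) hk'
    simp [Finset.piecewise, hk2]
  simp only [h1, h2] at h
  have h3 : ∑ u, ∑ v, (PW w u * PW w v) • (f u * g u) = Ex w (fun u => f u * g u) := by
    unfold Ex
    simp only [← sum_smul, ← mul_sum, sum_PW hw, mul_one]
  rw [← h3, ← h]
  unfold Ex
  rw [sum_mul_sum]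
  refine sum_congr rfl fun u _ => sum_congr rfl fun v _ => ?_
  rw [smul_mul_smul_comm]

lemma dependsOn_prod {ι : Type} [DecidableEq ι] (T : Finset ι) (A : ι → Finset K) (f : ι → (K → α) → F)
    (hf : ∀ i ∈ T, DependsOn (f i) (A i : Set K)) :
    DependsOn (fun u => ∏ i ∈ T, f i u) ((T.biUnion A : Finset K) : Set K) := by
  intro x y hxy
  refine prod_congr rfl fun i hi => hf i hi fun k hk => hxy k ?_
  simp only [coe_biUnion, Set.mem_iUnion]
  exact ⟨i, hi, hk⟩

lemma Ex_prod (hw : IsWt w) {ι : Type} [DecidableEq ι] (T : Finset ι) (A : ι → Finset K)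
    (f : ι → (K → α) → F) (hA : ∀ i ∈ T, ∀ j ∈ T, i ≠ j → Disjoint (A i) (A j))
    (hf : ∀ i ∈ T, DependsOn (f i) (A i : Set K)) :
    Ex w (fun u => ∏ i ∈ T, f i u) = ∏ i ∈ T, Ex w (f i) := by
  induction T using Finset.induction_on with
  | empty => simp [Ex_const hw]
  | insert a T ha ih =>
    simp only [prod_insert ha]
    rw [Ex_mul_of_disjoint hw (A := A a) (B := T.biUnion A) ?_ (hf a (mem_insert_self _ _))
      (dependsOn_prod T A f fun i hi => hf i (mem_insert_of_mem hi)),
      ih (fun i hi j hj => hA i (mem_insert_of_mem hi) j (mem_insert_of_mem hj))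
        (fun i hi => hf i (mem_insert_of_mem hi))]
    rw [disjoint_biUnion_right]
    intro i hi
    exact hA a (mem_insert_self _ _) i (mem_insert_of_mem hi) (fun h => ha (h ▸ hi))

end mul

/-! ### Efron-Stein -/

/-- conditional Efron-Stein inequality -/
lemma efron_stein (hw : IsWt w) (A : Finset K) (f : (K → α) → ℝ) :
    Ex w (fun u => (f u - PE w Aᶜ f u) ^ 2)
      ≤ ∑ k ∈ A, Ex w (fun u => (f u - PE w {k}ᶜ f u) ^ 2) := by
  induction A using Finset.induction_on with
  | empty =>
    simp only [compl_empty, PE_univ hw, sub_self, sum_empty]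
    rw [show (fun _ : K → α => (0 : ℝ) ^ 2) = fun _ => 0 by simp, Ex_const hw]
  | insert a A ha ih =>
    rw [sum_insert ha]
    set g := PE w Aᶜ f with hg
    set g' := PE w (insert a A)ᶜ f with hg'
    have hg'g : g' = PE w Aᶜ (PE w {a}ᶜ f) := by
      rw [PE_PE hw, hg']; congr 1
      ext k; simp [not_or, and_comm]
    have hgdep : DependsOn g (Aᶜ : Finset K) := PE_dependsOn _ _
    have hg'dep : DependsOn g' (Aᶜ : Finset K) := by rw [hg'g]; exact PE_dependsOn _ _
    have hdep : DependsOn (fun u => g u - g' u) (Aᶜ : Finset K) := fun x y hxy => by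
      show g x - g' x = g y - g' y
      rw [hgdep hxy, hg'dep hxy]
    have horth : Ex w (fun u => (g u - g' u) * (f u - g u)) = 0 := by
      rw [← Ex_mul_PE hw _ hdep]
      have : PE w Aᶜ (fun u => f u - g u) = fun _ => 0 := by
        rw [PE_sub, hg, PE_PE hw, inter_self]; funext u; simp
      simp only [this, mul_zero]
      exact Ex_const hw _
    have hexp : Ex w (fun u => (f u - g' u) ^ 2)
        = Ex w (fun u => (f u - g u) ^ 2) + Ex w (fun u => (g u - g' u) ^ 2) := by
      have : ∀ u, (f u - g' u) ^ 2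
          = (f u - g u) ^ 2 + (2 * ((g u - g' u) * (f u - g u)) + (g u - g' u) ^ 2) := by
        intro u; ring
      simp only [this]
      rw [Ex_add, Ex_add, Ex_mul_left, horth]; ring
    rw [hexp]
    have hlast : Ex w (fun u => (g u - g' u) ^ 2) ≤ Ex w (fun u => (f u - PE w {a}ᶜ f u) ^ 2) := by
      have : (fun u => g u - g' u) = PE w Aᶜ (fun u => f u - PE w {a}ᶜ f u) := by
        rw [PE_sub, hg'g]
      have h := Ex_sq_PE_le hw Aᶜ (fun u => f u - PE w {a}ᶜ f u)
      rw [← this] at h
      exact h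
    linarith

lemma efron_stein_Vr (hw : IsWt w) (f : (K → α) → ℝ) :
    Vr w f ≤ ∑ k, Ex w (fun u => (f u - PE w {k}ᶜ f u) ^ 2) := by
  have h := efron_stein hw univ f
  simpa [Vr, PE_empty] using h

/-! ### Orthogonal projections on disjoint sets of coordinates -/

lemma Ex_proj (hw : IsWt w) {ι : Type} [DecidableEq ι] (T : Finset ι) (A : ι → Finset K) (B : Finset K)
    (f : (K → α) → ℝ) (hA : ∀ i ∈ T, ∀ j ∈ T, i ≠ j → Disjoint (A i) (A j))
    (hB : ∀ i ∈ T, A i ⊆ B) :
    Ex w (fun u => ((PE w B f u - Ex w f) - ∑ i ∈ T, (PE w (A i) f u - Ex w f)) ^ 2)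
      + ∑ i ∈ T, Vr w (PE w (A i) f) = Vr w (PE w B f) := by
  set μ := Ex w f with hμ
  set X : (K → α) → ℝ := fun u => PE w B f u - μ with hX
  set Y : ι → (K → α) → ℝ := fun i u => PE w (A i) f u - μ with hY
  have hVY : ∀ i, Vr w (PE w (A i) f) = Ex w (fun u => (Y i u) ^ 2) := by
    intro i; unfold Vr; rw [Ex_PE hw]
  have hVX : Vr w (PE w B f) = Ex w (fun u => (X u) ^ 2) := by
    unfold Vr; rw [Ex_PE hw]
  have hYdep : ∀ i, DependsOn (Y i) (A i : Set K) := by
    intro i x y hxy
    show PE w (A i) f x - μ = PE w (A i) f y - μ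
    rw [PE_dependsOn (w := w) (A i) f hxy]
  have hPX : ∀ i ∈ T, PE w (A i) X = Y i := by
    intro i hi
    have : PE w (A i) X = fun u => PE w (A i) (PE w B f) u - PE w (A i) (fun _ => μ) u := by
      rw [hX]; exact PE_sub _ _ _
    rw [this, PE_PE hw, PE_const hw, inter_eq_left.mpr (hB i hi)]
  have hXY : ∀ i ∈ T, Ex w (fun u => Y i u * X u) = Ex w (fun u => (Y i u) ^ 2) := by
    intro i hi
    rw [← Ex_mul_PE hw X (hYdep i), hPX i hi]
    congr 1; funext u; ring
  have hYY : ∀ i ∈ T, ∀ j ∈ T, i ≠ j → Ex w (fun u => Y i u * Y j u) = 0 := by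
    intro i hi j hj hij
    rw [Ex_mul_of_disjoint hw (hA i hi j hj hij) (hYdep i) (hYdep j)]
    have : Ex w (Y i) = 0 := by
      show Ex w (fun u => PE w (A i) f u - μ) = 0
      rw [Ex_sub, Ex_PE hw, Ex_const hw, sub_self]
    rw [this, zero_mul]
  have hSS : Ex w (fun u => (∑ i ∈ T, Y i u) ^ 2) = ∑ i ∈ T, Ex w (fun u => (Y i u) ^ 2) := by
    have : ∀ u, (∑ i ∈ T, Y i u) ^ 2 = ∑ i ∈ T, ∑ j ∈ T, Y i u * Y j u := by
      intro u; rw [sq, sum_mul_sum]
    simp only [this]
    rw [Ex_sum]
    refine sum_congr rfl fun i hi => ?_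
    rw [Ex_sum, sum_eq_single i]
    · congr 1; funext u; ring
    · intro j hj hji; exact hYY i hi j hj (Ne.symm hji)
    · intro h; exact absurd hi h
  have hXS : Ex w (fun u => (∑ i ∈ T, Y i u) * X u) = ∑ i ∈ T, Ex w (fun u => (Y i u) ^ 2) := by
    simp only [sum_mul]
    rw [Ex_sum]
    exact sum_congr rfl fun i hi => hXY i hi
  have hexp : ∀ u, (X u - ∑ i ∈ T, Y i u) ^ 2
      = (X u) ^ 2 + ((-2) * ((∑ i ∈ T, Y i u) * X u) + (∑ i ∈ T, Y i u) ^ 2) := by
    intro u; ring
  rw [hVX]
  simp only [hVY]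
  show Ex w (fun u => (X u - ∑ i ∈ T, Y i u) ^ 2) + _ = _
  simp only [hexp]
  rw [Ex_add, Ex_add, Ex_mul_left, hXS, hSS]
  ring

/-! ### Marginals -/

/-- expectation of a function of the coordinates picked by an injection -/
lemma Ex_comp_injective {K' : Type} [Fintype K'] [DecidableEq K'] {w : K → α → ℝ} (hw : IsWt w)
    (e : K' → K) (he : Function.Injective e) (f : (K' → α) → E) :
    Ex w (fun u => f (fun k' => u (e k'))) = Ex (fun k' => w (e k')) f := by
  classical
  unfold Ex
  -- group the configurations `u` by their restriction along `e`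
  rw [← sum_fiberwise_of_maps_to (s := univ) (t := univ) (g := fun u : K → α => fun k' => u (e k'))
    (fun _ _ => mem_univ _)]
  refine sum_congr rfl fun v _ => ?_
  have : ∀ u ∈ univ.filter (fun u : K → α => (fun k' => u (e k')) = v),
      PW w u • f (fun k' => u (e k')) = PW w u • f v := by
    intro u hu
    rw [(mem_filter.mp hu).2]
  rw [sum_congr rfl this, ← sum_smul]
  congr 1
  -- the fibre is a product
  have hfib : univ.filter (fun u : K → α => (fun k' => u (e k')) = v)
      = Fintype.piFinset (fun k => if h : ∃ k', e k' = k then {v h.choose} else univ) := by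
    ext u
    simp only [mem_filter, mem_univ, true_and, Fintype.mem_piFinset]
    constructor
    · rintro rfl k
      by_cases h : ∃ k', e k' = k
      · rw [dif_pos h, mem_singleton]
        show u k = u (e h.choose)
        rw [h.choose_spec]
      · rw [dif_neg h]; exact mem_univ _
    · intro h
      funext k'
      have := h (e k')
      have hex : ∃ k'', e k'' = e k' := ⟨k', rfl⟩
      rw [dif_pos hex, mem_singleton] at this
      rw [this]
      congr 1
      exact he hex.choose_spec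
  rw [hfib]
  have h := Finset.prod_univ_sum (fun k => if h : ∃ k', e k' = k then ({v h.choose} : Finset α) else univ)
    (fun k a => w k a)
  have h2 : ∑ u ∈ Fintype.piFinset
      (fun k => if h : ∃ k', e k' = k then ({v h.choose} : Finset α) else univ), PW w u
      = ∏ k, ∑ a ∈ (if h : ∃ k', e k' = k then ({v h.choose} : Finset α) else univ), w k a := by
    rw [h]; rfl
  rw [h2]
  symm
  refine Fintype.prod_of_injective e he _ _ (fun k hk => ?_) (fun k' => ?_)
  · rw [dif_neg (by simpa using hk), hw.sum_one]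
  · have hex : ∃ k'', e k'' = e k' := ⟨k', rfl⟩
    rw [dif_pos hex, sum_singleton, he hex.choose_spec]

end general

end

end Pool.Agent.Helper70.Matching
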