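import Pool.Agent.Helper70.Matching.EeBasic

set_option autoImplicit false
set_option linter.unusedSectionVars false
open Finset Filter Topology

namespace Pool.Agent.Helper70.Matching

noncomputable section

lemma norm_Av_le {N k : ℕ} {φ : Multiset (Site N) → ℂ} (h : ∀ m, ‖φ m‖ ≤ 1) : ‖Av N k φ‖ ≤ 1 := by
  unfold Av
  rw [norm_mul, norm_inv, norm_pow, norm_pow, Complex.norm_natCast]
  have h1 : ‖∑ v : Fin k → Site N, φ ((univ : Finset (Fin k)).val.map v)‖ ≤ (((N : ℝ) ^ 2) ^ k) := by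
    refine (norm_sum_le _ _).trans ((sum_le_sum fun v _ => h _).trans (le_of_eq ?_))
    simp [sq]
  have h0 : (0 : ℝ) ≤ (((N : ℝ) ^ 2) ^ k) := by positivity
  calc (((N : ℝ) ^ 2) ^ k)⁻¹ * ‖∑ v : Fin k → Site N, φ ((univ : Finset (Fin k)).val.map v)‖
      ≤ (((N : ℝ) ^ 2) ^ k)⁻¹ * (((N : ℝ) ^ 2) ^ k) :=
        mul_le_mul_of_nonneg_left h1 (inv_nonneg.mpr h0)
    _ ≤ 1 := inv_mul_le_one

lemma Av_one {N k : ℕ} (hN : 0 < N) {φ : Multiset (Site N) → ℂ} (h : ∀ m, φ m = 1) :
    Av N k φ = 1 := by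
  unfold Av
  simp only [h, sum_const, card_univ, nsmul_eq_mul, mul_one]
  have : (((Fintype.card (Fin k → Site N) : ℕ) : ℂ)) = ((N : ℂ) ^ 2) ^ k := by
    simp [sq]
  rw [this, inv_mul_cancel₀]
  have : (N : ℂ) ≠ 0 := by exact_mod_cast hN.ne'
  positivity

/-- law of the number of points -/
def PN (p : ℝ) (N k : ℕ) : ℝ := Ex (bw p) (fun ω : Site N → Bool => if Nw ω = k then (1 : ℝ) else 0)

lemma Nw_le {N : ℕ} (ω : Site N → Bool) : Nw ω ≤ N * N := by
  unfold Nw cnt
  refine (card_filter_le _ _).trans (le_of_eq ?_)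
  simp

lemma Ex_Nw {p : ℝ} {N : ℕ} (F : ℕ → ℂ) :
    Ex (bw p) (fun ω : Site N → Bool => F (Nw ω)) = ∑ k ∈ range (N * N + 1), (PN p N k : ℂ) * F k := by
  have h1 : (fun ω : Site N → Bool => F (Nw ω))
      = fun ω => ∑ k ∈ range (N * N + 1), (if Nw ω = k then F k else 0) := by
    funext ω
    rw [sum_ite_eq, if_pos (mem_range.mpr (Nat.lt_succ_of_le (Nw_le ω)))]
  rw [h1, Ex_sum]
  refine sum_congr rfl fun k _ => ?_
  unfold PN Ex
  rw [Complex.ofReal_sum, sum_mul]
  refine sum_congr rfl fun u _ => ?_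
  by_cases h : Nw u = k <;> simp [h]

lemma Ex_ofReal {K α : Type} [Fintype K] [DecidableEq K] [Fintype α] (w : K → α → ℝ)
    (f : (K → α) → ℝ) : ((Ex w f : ℝ) : ℂ) = Ex w (fun u => (f u : ℂ)) := by
  unfold Ex; simp

/-- the test function on multisets of sites -/
def phi (a : ℕ → ℝ) (n : ℕ) (t : ℝ) (m : Multiset (Site (NN n))) : ℂ :=
  Complex.exp (Complex.I * ((t * (MF ∅ (m.map (pos (hn n))) - a n) / bb MF n : ℝ) : ℂ))

lemma norm_phi (a : ℕ → ℝ) (n : ℕ) (t : ℝ) (m : Multiset (Site (NN n))) : ‖phi a n t m‖ ≤ 1 := by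
  unfold phi
  rw [mul_comm, Complex.norm_exp_ofReal_mul_I]

lemma dist_pos_le {N g : ℕ} {h : ℝ} (hh : 0 < h) (hg : 0 < g) (y y' : Site N)
    (h1 : (y.1 : ℕ) / g = (y'.1 : ℕ) / g) (h2 : (y.2 : ℕ) / g = (y'.2 : ℕ) / g) :
    dist (pos h y) (pos h y') ≤ 2 * (g * h) := by
  have key : ∀ a b : ℕ, a / g = b / g → |((a : ℝ) + 1 / 2) * h - ((b : ℝ) + 1 / 2) * h| ≤ g * h := by
    intro a b hab
    have e : ((a : ℝ) + 1 / 2) * h - ((b : ℝ) + 1 / 2) * h = ((a : ℝ) - b) * h := by ring
    rw [e, abs_mul, abs_of_pos hh]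
    refine mul_le_mul_of_nonneg_right ?_ hh.le
    have ha := Nat.div_add_mod a g
    have hb := Nat.div_add_mod b g
    have ha' := Nat.mod_lt a hg
    have hb' := Nat.mod_lt b hg
    rw [abs_le]
    constructor
    · have : b ≤ a + g := by rw [← ha, ← hb, hab]; omega
      have : (b : ℝ) ≤ a + g := by exact_mod_cast this
      linarith
    · have : a ≤ b + g := by rw [← ha, ← hb, hab]; omega
      have : (a : ℝ) ≤ b + g := by exact_mod_cast this
      linarith
  rw [Complex.dist_eq]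
  refine (Complex.norm_le_abs_re_add_abs_im _).trans ?_
  simp only [Complex.sub_re, Complex.sub_im, pos]
  have k1 := key y.1 y'.1 h1
  have k2 := key y.2 y'.2 h2
  linarith

/-- chaining the pair insertion estimate -/
lemma chain_pairs {f : ℕ → ℂ} {c : ℝ} {lo : ℕ}
    (h : ∀ k, lo ≤ k → Even k → ‖f (k + 2) - f k‖ ≤ c) :
    ∀ d k, lo ≤ k → Even k → ‖f (k + 2 * d) - f k‖ ≤ c * d := by
  intro d
  induction d with
  | zero => intro k _ _; simp
  | succ d ih =>
    intro k hk hev
    have h1 := ih k hk hev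
    have h2 := h (k + 2 * d) (by omega) (hev.add (even_two_mul d))
    have e : k + 2 * (d + 1) = k + 2 * d + 2 := by ring
    rw [e]
    have := norm_sub_le_norm_sub_add_norm_sub (f (k + 2 * d + 2)) (f (k + 2 * d)) (f k)
    push_cast
    linarith

/-- the CLT for uniform sites along even `n` -/
theorem sites_clt (hJ : Spec_JCLT) (hgood : Spec_goodMF) (hlip : Spec_lipMF) (hbb : Spec_bbLower)
    (has : Spec_asymp) (hmom : Spec_moments) (hZ : ∀ (N : ℕ) (p : ℝ), 0 ≤ p → p ≤ 1 / 2 → 1 / 2 ≤ Pev p N)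
    (hsub : Spec_subset) (hpair : Spec_pair) (hdep : Spec_depoisson) :
    ∃ a : ℕ → ℝ, ∀ t : ℝ, Tendsto (fun i : ℕ => Av (NN (2 * i)) (2 * i) (phi a (2 * i) t)) atTop
      (𝓝 (Complex.exp (-(t ^ 2 / 2 : ℝ)))) := by
  obtain ⟨C, hC⟩ := hgood
  obtain ⟨a, ha⟩ := hJ MF C hC
  obtain ⟨c₁, hc₁, hb⟩ := hbb MF C hC
  obtain ⟨C', hC', hm⟩ := hmom MF C hC
  obtain ⟨-, -, -, -, hfac, hev⟩ := has
  have h2 : Tendsto (fun i : ℕ => 2 * i) atTop atTop :=
    tendsto_id.const_mul_atTop' (by norm_num)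
  refine ⟨a, ?_⟩
  -- the sequences
  set s : ℕ → Finset ℕ := fun i => range (NN (2 * i) * NN (2 * i) + 1) with hs
  set π : ℕ → ℕ → ℝ := fun i k =>
    |if Even k then (Pev (hn (2 * i) ^ 2) (NN (2 * i)))⁻¹ * PN (hn (2 * i) ^ 2) (NN (2 * i)) k else 0|
    with hπ
  set X : ℕ → ℕ → ℝ := fun i k => ((k : ℝ) - (2 * i : ℕ)) / Real.sqrt (2 * i : ℕ) with hX
  set A : ℕ → ℝ := fun i => alph MF (2 * i) * Real.sqrt (2 * i : ℕ) / bb MF (2 * i) with hA
  set ψ : ℕ → ℝ → ℕ → ℂ := fun i t k => Av (NN (2 * i)) k (phi a (2 * i) t) with hψ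
  -- `π` without the absolute value
  have hπeq : ∀ i, hn (2 * i) ^ 2 ≤ 1 / 2 → ∀ k, π i k =
      if Even k then (Pev (hn (2 * i) ^ 2) (NN (2 * i)))⁻¹ * PN (hn (2 * i) ^ 2) (NN (2 * i)) k else 0 := by
    intro i hi k
    rw [hπ]; simp only
    refine abs_of_nonneg ?_
    split_ifs
    · refine mul_nonneg (inv_nonneg.mpr (Pev_nonneg (sq_nonneg _) (by linarith)))
        (Ex_nonneg (isWt_bw (sq_nonneg _) (by linarith)) fun ω => ?_)
      split_ifs <;> norm_num
    · exact le_rfl
  -- sums against `π`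
  have hπsum : ∀ i, hn (2 * i) ^ 2 ≤ 1 / 2 → ∀ F : ℕ → ℂ, ∑ k ∈ s i, (π i k : ℂ) * F k
      = (Pev (hn (2 * i) ^ 2) (NN (2 * i)))⁻¹ • Ex (bw (hn (2 * i) ^ 2))
        (fun ω : Site (NN (2 * i)) → Bool => (if Even (Nw ω) then F (Nw ω) else 0)) := by
    intro i hi F
    rw [Ex_Nw (fun k => if Even k then F k else 0), smul_sum]
    refine sum_congr rfl fun k _ => ?_
    rw [hπeq i hi k]
    split_ifs
    · rw [Complex.real_smul]; push_cast; ring
    · simp
  refine fun t => hdep s π X A ψ (fun i t => Av (NN (2 * i)) (2 * i) (phi a (2 * i) t)) (4 + 4 / c₁)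
    (fun i k => abs_nonneg _) ?_ (fun i t k => norm_Av_le (norm_phi a _ t))
    (fun i t => norm_Av_le (norm_phi a _ t)) ?_ ?_ ?_ t
  · -- total mass one
    filter_upwards [h2.eventually hev] with i hi
    obtain ⟨-, hhalf, -⟩ := hi
    have := hπsum i hhalf (fun _ => 1)
    have h3 : ((∑ k ∈ s i, π i k : ℝ) : ℂ) = 1 := by
      rw [Complex.ofReal_sum]
      simp only [mul_one] at this
      rw [this]
      have h4 : Ex (bw (hn (2 * i) ^ 2))
        (fun ω : Site (NN (2 * i)) → Bool => (if Even (Nw ω) then (1 : ℂ) else 0))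
        = ((Pev (hn (2 * i) ^ 2) (NN (2 * i)) : ℝ) : ℂ) := by
        unfold Pev; rw [Ex_ofReal]
        congr 1; funext ω; split_ifs <;> simp
      rw [h4, Complex.real_smul, ← Complex.ofReal_mul, inv_mul_cancel₀]
      · simp
      · have := hZ (NN (2 * i)) (hn (2 * i) ^ 2) (sq_nonneg _) hhalf
        linarith
    exact_mod_cast h3
  · -- `t = 0`
    filter_upwards [h2.eventually hev] with i hi k _
    obtain ⟨-, -, hN, -⟩ := hi
    refine Av_one hN fun m => ?_
    unfold phi; simp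
  · -- joint CLT
    intro T ε hT hε
    have e1 := h2.eventually (ha T (ε / 2) hT (by positivity))
    -- the error of the subset/tuple comparison
    have e2 : ∀ᶠ n : ℕ in atTop, 4 * ((n : ℝ) + (n : ℝ) ^ 2) / (NN n : ℝ) ^ 2 ≤ ε / 2 := by
      have hl : Tendsto (fun n : ℕ => (8 : ℝ) / n) atTop (𝓝 0) :=
        tendsto_const_div_atTop_nhds_zero_nat 8
      filter_upwards [hev, hl.eventually_lt_const (show (0 : ℝ) < ε / 2 by positivity),
        eventually_ge_atTop 1] with n hn h8 hn1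
      obtain ⟨-, -, hN, -, -, -, -, h4, -⟩ := hn
      refine le_trans ?_ h8.le
      have hn1' : (1 : ℝ) ≤ n := by exact_mod_cast hn1
      have h4' : (n : ℝ) ^ 4 ≤ NN n := by exact_mod_cast h4
      have hNpos : (0 : ℝ) < NN n := by exact_mod_cast hN
      rw [div_le_div_iff₀ (by positivity) (by positivity)]
      have h5 : ((n : ℝ) ^ 4) ^ 2 ≤ (NN n : ℝ) ^ 2 := by gcongr
      have h6 : (n : ℝ) ≤ (n : ℝ) ^ 2 := by nlinarith
      have h7 : (n : ℝ) ^ 3 ≤ (n : ℝ) ^ 8 := pow_le_pow_right₀ hn1' (by norm_num)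
      nlinarith
    have e2' := h2.eventually e2
    filter_upwards [e1, e2', h2.eventually hev, h2.eventually hb, h2.eventually (eventually_gt_atTop 0)]
      with i e1 e2 hi hbi hn0 t u ht hu
    obtain ⟨hpos, hhalf, hN, hNh, -⟩ := hi
    set n := 2 * i with hn
    have hsq0 : (0 : ℝ) ≤ Matching.hn n ^ 2 := sq_nonneg _
    have hsq1 : Matching.hn n ^ 2 ≤ 1 := by linarith
    have hsn : 0 < Real.sqrt n := Real.sqrt_pos.mpr (by exact_mod_cast hn0)
    have hbpos : 0 < bb MF n := lt_of_lt_of_le (by positivity) hbi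
    have hP : 1 / 2 ≤ Pev (Matching.hn n ^ 2) (NN n) := hZ (NN n) _ hsq0 hhalf
    rw [hπsum i hhalf]
    set g : ℕ → ℂ := fun k => if Even k then
      Complex.exp (Complex.I * (((u - t * A i) * X i k : ℝ) : ℂ)) else 0 with hg
    have hg1 : ∀ k, ‖g k‖ ≤ 1 := by
      intro k; simp only [hg]; split_ifs
      · rw [mul_comm, Complex.norm_exp_ofReal_mul_I]
      · simp
    have hD1 := hsub (NN n) (Matching.hn n ^ 2) 1 hN hsq0 hsq1 (phi a n t) g (norm_phi a n t) hg1
    -- second moment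
    have hNj : Ex (bw (Matching.hn n ^ 2)) (fun ω : Site (NN n) → Bool => (Nw ω : ℝ) ^ 2)
        ≤ n + (n : ℝ) ^ 2 := by
      have hblk : (blk (NN n) ((0 : Fin 1), (0 : Fin 1))).sites (NN n) = univ := by
        ext v
        simp only [NBox.sites, blk, mem_filter, mem_univ, true_and, iff_true]
        simp
      have hr : ((NN n : ℕ) : ℝ) * Matching.hn n = Real.sqrt n := hNh
      have hm1 := hm (NN n) 1 (NN n) (Matching.hn n) ((0 : Fin 1), (0 : Fin 1)) (by simp) hpos
        (by rw [hr]; exact Real.one_le_sqrt.mpr (by exact_mod_cast hn0)) hhalf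
      obtain ⟨-, -, hE, hV, -⟩ := hm1
      rw [hr, Real.sq_sqrt (Nat.cast_nonneg n)] at hE hV
      rw [Vr_eq (isWt_bw hsq0 hsq1), hE] at hV
      have : (fun ω : Site (NN n) → Bool => (Nj (NN n) ((0 : Fin 1), (0 : Fin 1)) ω : ℝ) ^ 2)
          = fun ω : Site (NN n) → Bool => (Nw ω : ℝ) ^ 2 := by
        funext ω; unfold Nj Nw; rw [hblk]
      rw [this] at hV
      have h9 : (0 : ℝ) ≤ n := Nat.cast_nonneg n
      nlinarith
    -- rewrite the joint CLT
    have hE : Ee (Matching.hn n ^ 2) (fun ω : Site (NN n) → Bool => Complex.exp (Complex.I *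
        ((t * (Mw MF (Matching.hn n) ω - a n - alph MF n * ((Nw ω : ℝ) - n)) / bb MF n
          + u * ((Nw ω : ℝ) - n) / Real.sqrt n : ℝ) : ℂ)))
        = (Pev (Matching.hn n ^ 2) (NN n))⁻¹ • Ex (bw (Matching.hn n ^ 2))
          (fun ω : Site (NN n) → Bool => g (Nw ω) * phi a n t ((univ.filter (fun v => ω v = true)).val)) := by
      rw [Ee_eq]; congr 2; funext ω
      simp only [hg]
      split_ifs with he
      · unfold phi
        rw [← Complex.exp_add]
        congr 1
        rw [← mul_add, ← Complex.ofReal_add]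
        congr 2
        simp only [hA, hX, Mw, pts]
        rw [← hn]
        field_simp
        ring
      · simp
    have e1' := e1 t u ht hu
    rw [hE] at e1'
    have hF : (fun ω : Site (NN n) → Bool => (if Even (Nw ω) then
        (Complex.exp (Complex.I * (((u - t * A i) * X i (Nw ω) : ℝ) : ℂ)) * ψ i t (Nw ω)) else 0))
        = fun ω => g (Nw ω) * Av (NN n) (Nw ω) (phi a n t) := by
      funext ω; simp only [hg, hψ]; split_ifs
      · rfl
      · simp
    rw [hF]
    set E1 := Ex (bw (Matching.hn n ^ 2))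
          (fun ω : Site (NN n) → Bool => g (Nw ω) * phi a n t ((univ.filter (fun v => ω v = true)).val))
    set E2 := Ex (bw (Matching.hn n ^ 2))
          (fun ω : Site (NN n) → Bool => g (Nw ω) * Av (NN n) (Nw ω) (phi a n t))
    have hdiff : ‖(Pev (Matching.hn n ^ 2) (NN n))⁻¹ • E2 - (Pev (Matching.hn n ^ 2) (NN n))⁻¹ • E1‖
        ≤ ε / 2 := by
      rw [← smul_sub, norm_smul, norm_inv, Real.norm_of_nonneg (by linarith), norm_sub_rev]
      have hinv : (Pev (Matching.hn n ^ 2) (NN n))⁻¹ ≤ 2 := by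
        rw [inv_le_comm₀ (by linarith) (by norm_num)]; linarith
      calc (Pev (Matching.hn n ^ 2) (NN n))⁻¹ * ‖E1 - E2‖ ≤ 2 * (1 * (n + (n : ℝ) ^ 2) / (NN n : ℝ) ^ 2) := by
            refine mul_le_mul hinv (hD1.trans ?_) (norm_nonneg _) (by norm_num)
            gcongr
        _ ≤ 4 * ((n : ℝ) + (n : ℝ) ^ 2) / (NN n : ℝ) ^ 2 := by
            have h0 : (0 : ℝ) ≤ ((n : ℝ) + (n : ℝ) ^ 2) / (NN n : ℝ) ^ 2 := by positivity
            have e : 2 * (1 * (n + (n : ℝ) ^ 2) / (NN n : ℝ) ^ 2)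
              = 2 * (((n : ℝ) + (n : ℝ) ^ 2) / (NN n : ℝ) ^ 2) := by ring
            have e' : 4 * ((n : ℝ) + (n : ℝ) ^ 2) / (NN n : ℝ) ^ 2
              = 4 * (((n : ℝ) + (n : ℝ) ^ 2) / (NN n : ℝ) ^ 2) := by ring
            rw [e, e']; linarith
        _ ≤ ε / 2 := e2
    have := norm_sub_le_norm_sub_add_norm_sub ((Pev (Matching.hn n ^ 2) (NN n))⁻¹ • E2)
      ((Pev (Matching.hn n ^ 2) (NN n))⁻¹ • E1) (Complex.exp (-((t ^ 2 + u ^ 2) / 2 : ℝ)))
    linarith
  · -- equicontinuity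
    filter_upwards [h2.eventually hev, h2.eventually hfac, h2.eventually hb,
      h2.eventually (eventually_ge_atTop 4)] with i hi hfi hbi hn4 t k _ hπk
    obtain ⟨hpos, hhalf, hN, hNh, -, hB, hk, -, -, hle⟩ := hi
    have hkev : Even k := by
      by_contra hodd
      exact hπk (by rw [hπeq i hhalf]; simp [hodd])
    set n := 2 * i with hn
    have hnev : Even n := even_two_mul i
    have hn0 : (0 : ℝ) < n := by
      have : 0 < n := by omega
      exact_mod_cast this
    have hn4' : (4 : ℝ) ≤ n := by exact_mod_cast hn4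
    have hsn : 0 < Real.sqrt n := Real.sqrt_pos.mpr hn0
    have hs1 : 1 ≤ Real.sqrt n := Real.one_le_sqrt.mpr (by linarith)
    have hbpos : 0 < bb MF n := lt_of_lt_of_le (by positivity) hbi
    have hnn : Real.sqrt n * Real.sqrt n = n := Real.mul_self_sqrt hn0.le
    simp only [hψ, hX]
    rw [← hn]
    set f : ℕ → ℂ := fun k => Av (NN n) k (phi a n t) with hf
    show ‖f k - f n‖ ≤ (4 + 4 / c₁) * (1 + |t|) * |((k : ℝ) - n) / Real.sqrt n|
    -- one step
    have hνs : ((Bn n * kn n : ℕ) : ℝ) ≤ Real.sqrt n := Real.le_sqrt_of_sq_le hle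
    have hstep : ∀ k : ℕ, n / 2 ≤ k → Even k →
        ‖f (k + 2) - f k‖ ≤ (4 + 4 * |t| / c₁) / Real.sqrt n := by
      intro k hk2 hke
      have hp := hpair (NN n) (Bn n * kn n) (n.factorial)
        (by unfold NN rsn; ring) hN (phi a n t) (4 * |t| / (c₁ * Real.sqrt n)) (norm_phi a n t) ?_ k hke
      · refine hp.trans ?_
        have h1 : 2 * ((Bn n * kn n : ℕ) : ℝ) / ((k : ℝ) + 1) ≤ 4 / Real.sqrt n := by
          rw [div_le_div_iff₀ (by positivity) hsn]
          have h3 : (n : ℝ) / 2 ≤ (k : ℝ) + 1 := by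
            have : n ≤ 2 * (k + 1) := by omega
            have : (n : ℝ) ≤ 2 * ((k : ℝ) + 1) := by exact_mod_cast this
            linarith
          nlinarith
        have h4 : 4 * |t| / (c₁ * Real.sqrt n) = (4 * |t| / c₁) / Real.sqrt n := by
          rw [div_div]
        rw [h4, add_div]
        push_cast at h1 ⊢
        linarith
      · intro m hm y y' hy1 hy2
        unfold phi
        refine (norm_exp_sub_exp _ _).trans ((min_le_right _ _).trans ?_)
        have e : t * (MF ∅ (Multiset.map (pos (Matching.hn n)) (y ::ₘ y' ::ₘ m)) - a n) / bb MF n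
            - t * (MF ∅ (Multiset.map (pos (Matching.hn n)) m) - a n) / bb MF n
            = t * (MF ∅ (Multiset.map (pos (Matching.hn n)) (y ::ₘ y' ::ₘ m))
              - MF ∅ (Multiset.map (pos (Matching.hn n)) m)) / bb MF n := by ring
        rw [e, abs_div, abs_mul, abs_of_pos hbpos]
        simp only [Multiset.map_cons]
        have h5 := hlip.2 (m.map (pos (Matching.hn n))) (pos (Matching.hn n) y) (pos (Matching.hn n) y')
          (by rwa [Multiset.card_map])
        have h6 := dist_pos_le hpos (Nat.factorial_pos n) y y' hy1 hy2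
        have h7 : |MF ∅ (pos (Matching.hn n) y ::ₘ pos (Matching.hn n) y' ::ₘ m.map (pos (Matching.hn n)))
            - MF ∅ (m.map (pos (Matching.hn n)))| ≤ 4 := by
          have := hfi.2
          linarith
        calc |t| * |MF ∅ (pos (Matching.hn n) y ::ₘ pos (Matching.hn n) y' ::ₘ m.map (pos (Matching.hn n)))
            - MF ∅ (m.map (pos (Matching.hn n)))| / bb MF n ≤ |t| * 4 / (c₁ * Real.sqrt n) := by
              gcongr
          _ = 4 * |t| / (c₁ * Real.sqrt n) := by ring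
    have hcst : 0 ≤ (4 + 4 * |t| / c₁) / Real.sqrt n := by positivity
    have hK : (4 + 4 * |t| / c₁) ≤ (4 + 4 / c₁) * (1 + |t|) := by
      have h8 : 4 * |t| / c₁ = 4 / c₁ * |t| := by ring
      have h9 : 0 ≤ |t| := abs_nonneg t
      have h10 : 0 ≤ 4 / c₁ := by positivity
      rw [h8]; nlinarith
    have hX0 : 0 ≤ |((k : ℝ) - n) / Real.sqrt n| := abs_nonneg _
    rcases Nat.lt_or_ge k (n / 2) with hklt | hkge
    · -- far below
      have h11 : ‖f k - f n‖ ≤ 2 := by
        refine (norm_sub_le _ _).trans ?_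
        have := norm_Av_le (N := NN n) (k := k) (norm_phi a n t)
        have := norm_Av_le (N := NN n) (k := n) (norm_phi a n t)
        simp only [hf]; linarith
      have h12 : Real.sqrt n / 2 ≤ |((k : ℝ) - n) / Real.sqrt n| := by
        rw [abs_div, abs_of_pos hsn, le_div_iff₀ hsn, abs_sub_comm]
        have : 2 * k ≤ n := by omega
        have h13 : 2 * (k : ℝ) ≤ n := by exact_mod_cast this
        have := le_abs_self ((n : ℝ) - k)
        nlinarith
      have h14 : (4 : ℝ) ≤ (4 + 4 / c₁) * (1 + |t|) := by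
        have h18 : 0 ≤ 4 / c₁ := by positivity
        have h19 := abs_nonneg t
        calc (4 : ℝ) = 4 * 1 := by norm_num
          _ ≤ (4 + 4 / c₁) * (1 + |t|) :=
            mul_le_mul (by linarith) (by linarith) (by norm_num) (by linarith)
      have h20 : (1 : ℝ) / 2 ≤ |((k : ℝ) - n) / Real.sqrt n| := by linarith
      calc ‖f k - f n‖ ≤ 2 := h11
        _ = 4 * (1 / 2) := by norm_num
        _ ≤ (4 + 4 / c₁) * (1 + |t|) * |((k : ℝ) - n) / Real.sqrt n| :=
          mul_le_mul h14 h20 (by norm_num) (by linarith)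
    · -- near or above
      rcases le_total k n with hkn | hkn
      · obtain ⟨d, hd⟩ : ∃ d, n = k + 2 * d := by
          obtain ⟨x, hx⟩ := hkev; obtain ⟨y, hy⟩ := hnev
          exact ⟨y - x, by omega⟩
        have h15 := chain_pairs hstep d k hkge hkev
        rw [← hd] at h15
        rw [norm_sub_rev]
        refine h15.trans ?_
        have h16 : |((k : ℝ) - n) / Real.sqrt n| = 2 * d / Real.sqrt n := by
          rw [abs_div, abs_of_pos hsn]
          congr 1
          have : (n : ℝ) = k + 2 * d := by exact_mod_cast hd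
          rw [this, show (k : ℝ) - (k + 2 * d) = -(2 * d) by ring, abs_neg, abs_of_nonneg (by positivity)]
        rw [h16]
        have h17 : (0 : ℝ) ≤ d / Real.sqrt n := by positivity
        calc (4 + 4 * |t| / c₁) / Real.sqrt n * d = (4 + 4 * |t| / c₁) * (d / Real.sqrt n) := by ring
          _ ≤ ((4 + 4 / c₁) * (1 + |t|)) * (d / Real.sqrt n) := mul_le_mul_of_nonneg_right hK h17
          _ ≤ ((4 + 4 / c₁) * (1 + |t|)) * (2 * d / Real.sqrt n) := by
              refine mul_le_mul_of_nonneg_left ?_ (by positivity)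
              rw [mul_div_assoc]; linarith
      · obtain ⟨d, hd⟩ : ∃ d, k = n + 2 * d := by
          obtain ⟨x, hx⟩ := hkev; obtain ⟨y, hy⟩ := hnev
          exact ⟨x - y, by omega⟩
        have h15 := chain_pairs hstep d n (by omega) hnev
        rw [← hd] at h15
        refine h15.trans ?_
        have h16 : |((k : ℝ) - n) / Real.sqrt n| = 2 * d / Real.sqrt n := by
          rw [abs_div, abs_of_pos hsn]
          congr 1
          have : (k : ℝ) = n + 2 * d := by exact_mod_cast hd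
          rw [this, show (n : ℝ) + 2 * d - n = 2 * d by ring, abs_of_nonneg (by positivity)]
        rw [h16]
        have h17 : (0 : ℝ) ≤ d / Real.sqrt n := by positivity
        calc (4 + 4 * |t| / c₁) / Real.sqrt n * d = (4 + 4 * |t| / c₁) * (d / Real.sqrt n) := by ring
          _ ≤ ((4 + 4 / c₁) * (1 + |t|)) * (d / Real.sqrt n) := mul_le_mul_of_nonneg_right hK h17
          _ ≤ ((4 + 4 / c₁) * (1 + |t|)) * (2 * d / Real.sqrt n) := by
              refine mul_le_mul_of_nonneg_left ?_ (by positivity)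
              rw [mul_div_assoc]; linarith

end

end Pool.Agent.Helper70.Matching
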