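import Pool.Agent.Helper70.Matching.Assembly1
import Pool.Agent.Helper35.Matching.D4

set_option autoImplicit false
set_option linter.unusedSectionVars false
open Finset Filter Topology MeasureTheory ProbabilityTheory

namespace Pool.Agent.Helper70.Matching

noncomputable section

/-- the matching length of the first `2k` points, as in the frozen statement -/
def Mu {Ω : Type} (X : ℕ → Ω → ℝ × ℝ) (k : ℕ) (ω : Ω) : ℝ :=
  ⨅ σ : {σ : Equiv.Perm (Fin (2 * k)) // (∀ i, σ (σ i) = i) ∧ ∀ i, σ i ≠ i},
    (1/2 : ℝ) * ∑ i : Fin (2 * k),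
      Real.sqrt (((X i.val ω).1 - (X (σ.1 i).val ω).1) ^ 2
        + ((X i.val ω).2 - (X (σ.1 i).val ω).2) ^ 2)

lemma measurable_Mu {Ω : Type} [MeasurableSpace Ω] {X : ℕ → Ω → ℝ × ℝ} (hX : ∀ i, Measurable (X i))
    (k : ℕ) : Measurable (Mu X k) := by
  unfold Mu
  refine Measurable.iInf fun σ => ?_
  refine Measurable.const_mul (Finset.measurable_sum _ fun i _ => ?_) _
  refine Measurable.sqrt ?_
  exact (((hX _).fst.sub (hX _).fst).pow_const 2).add (((hX _).snd.sub (hX _).snd).pow_const 2)

lemma dist_bound (hround : Spec_round) (hscale : Spec_scale) (hform : Spec_formula)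
    (hlip : Spec_lipMF) {Ω : Type} (X : ℕ → Ω → ℝ × ℝ) (k : ℕ) (ω : Ω) (N : ℕ) (hN : 0 < N) (h : ℝ)
    (hh : 0 < h) (hmem : ∀ i, X i ω ∈ Set.Icc (0:ℝ) 1 ×ˢ Set.Icc (0:ℝ) 1) :
    |(N * h) * Mu X k ω - MF ∅ (((univ : Finset (Fin (2 * k))).val.map
      (fun i : Fin (2 * k) => toSite N hN (X (i : ℕ) ω))).map (pos h))| ≤ (2 * k : ℕ) * h := by
  have h1 : Mu X k ω = MF ∅ ((univ : Finset (Fin (2 * k))).val.map
      (fun i : Fin (2 * k) => (⟨(X (i : ℕ) ω).1, (X (i : ℕ) ω).2⟩ : ℂ))) :=
    hform k (fun i => X (i : ℕ) ω)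
  have hNh : 0 < (N : ℝ) * h := by positivity
  rw [h1, ← hscale _ _ hNh, Multiset.map_map, Multiset.map_map]
  refine (hlip.1 (Fin (2 * k)) _ _ (by simp)).trans ?_
  calc ∑ i : Fin (2 * k), dist (((fun z : ℂ => ((N * h : ℝ)) • z) ∘
          fun i : Fin (2 * k) => (⟨(X (i : ℕ) ω).1, (X (i : ℕ) ω).2⟩ : ℂ)) i)
          ((pos h ∘ fun i : Fin (2 * k) => toSite N hN (X (i : ℕ) ω)) i)
      ≤ ∑ _i : Fin (2 * k), h := by
        refine sum_le_sum fun i _ => ?_
        obtain ⟨⟨h2, h3⟩, h4, h5⟩ := hmem i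
        exact hround.2 N hN h (X i ω) hh h2 h3 h4 h5
    _ = (2 * k : ℕ) * h := by simp

theorem main_clt
    (hsites : ∃ a : ℕ → ℝ, ∀ t : ℝ, Tendsto (fun i : ℕ => Av (NN (2 * i)) (2 * i) (phi a (2 * i) t)) atTop
      (𝓝 (Complex.exp (-(t ^ 2 / 2 : ℝ)))))
    (hround : Spec_round) (hscale : Spec_scale) (hform : Spec_formula) (hlip : Spec_lipMF)
    (hbb : Spec_bbLower) (hgood : Spec_goodMF) (has : Spec_asymp)
    (Ω : Type) [MeasurableSpace Ω] (P : Measure Ω) [IsProbabilityMeasure P]
    (X : ℕ → Ω → ℝ × ℝ) (hX : ∀ i, Measurable (X i)) (hind : iIndepFun X P)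
    (hlaw : ∀ i, P.map (X i) = volume.restrict (Set.Icc (0:ℝ) 1 ×ˢ Set.Icc (0:ℝ) 1)) :
    ∃ a b : ℕ → ℝ, (∀ k, 0 < b k) ∧
      ∀ f : BoundedContinuousFunction ℝ ℝ,
        Tendsto (fun k : ℕ => ∫ ω, f ((Mu X k ω - a k) / b k) ∂P)
          atTop (𝓝 (∫ x, f x ∂(gaussianReal 0 1))) := by
  obtain ⟨a, ha⟩ := hsites
  obtain ⟨C, hC⟩ := hgood
  obtain ⟨c₁, hc₁, hb⟩ := hbb MF C hC
  obtain ⟨-, -, -, -, -, hev⟩ := has
  have h2 : Tendsto (fun i : ℕ => 2 * i) atTop atTop :=
    tendsto_id.const_mul_atTop' (by norm_num)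
  set A : ℕ → ℝ := fun k => a (2 * k) / Real.sqrt (2 * k : ℕ) with hA
  set B : ℕ → ℝ := fun k => if 0 < bb MF (2 * k) / Real.sqrt (2 * k : ℕ) then
    bb MF (2 * k) / Real.sqrt (2 * k : ℕ) else 1 with hB
  have hBpos : ∀ k, 0 < B k := by
    intro k; simp only [hB]; split_ifs with h
    · exact h
    · norm_num
  refine ⟨A, B, hBpos, ?_⟩
  -- all points are in the unit square almost surely
  have hmem : ∀ᵐ ω ∂P, ∀ i, X i ω ∈ Set.Icc (0:ℝ) 1 ×ˢ Set.Icc (0:ℝ) 1 := by
    rw [ae_all_iff]
    intro i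
    have hms : MeasurableSet (Set.Icc (0:ℝ) 1 ×ˢ Set.Icc (0:ℝ) 1) :=
      measurableSet_Icc.prod measurableSet_Icc
    have h3 : ∀ᵐ x ∂(P.map (X i)), x ∈ Set.Icc (0:ℝ) 1 ×ˢ Set.Icc (0:ℝ) 1 := by
      rw [hlaw i]; exact ae_restrict_mem hms
    exact ae_of_ae_map (hX i).aemeasurable h3
  have hYm : ∀ k, Measurable (fun ω => (Mu X k ω - A k) / B k) := fun k =>
    ((measurable_Mu hX k).sub_const _).div_const _
  -- characteristic functions
  have hchar : ∀ t : ℝ, Tendsto (fun k : ℕ => ∫ ω, Complex.exp (Complex.I *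
      ((t * ((Mu X k ω - A k) / B k) : ℝ) : ℂ)) ∂P) atTop (𝓝 (Complex.exp (-(t ^ 2 / 2 : ℝ)))) := by
    intro t
    have h3 := ha t
    have herr : Tendsto (fun k : ℕ => |t| / c₁ * (1 / ((2 * k : ℕ) : ℝ))) atTop (𝓝 0) := by
      have := (tendsto_one_div_atTop_nhds_zero_nat (𝕜 := ℝ)).comp h2
      have := this.const_mul (|t| / c₁)
      simpa using this
    have hdiff : Tendsto (fun k : ℕ => (∫ ω, Complex.exp (Complex.I *
      ((t * ((Mu X k ω - A k) / B k) : ℝ) : ℂ)) ∂P) - Av (NN (2 * k)) (2 * k) (phi a (2 * k) t))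
        atTop (𝓝 0) := by
      refine squeeze_zero_norm' ?_ herr
      filter_upwards [h2.eventually hev, h2.eventually hb, eventually_gt_atTop 0] with k hk hbk hk0
      obtain ⟨hpos, -, hN, hNh, -, -, -, h4, -⟩ := hk
      set n := 2 * k with hn2
      have hn0 : (0 : ℝ) < n := by
        have : 0 < n := by omega
        exact_mod_cast this
      have hsn : 0 < Real.sqrt n := Real.sqrt_pos.mpr hn0
      have hbpos : 0 < bb MF n := lt_of_lt_of_le (by positivity) hbk
      have hBk : B k = bb MF n / Real.sqrt n := by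
        simp only [hB]; rw [← hn2, if_pos (by positivity)]
      have hAk : A k = a n / Real.sqrt n := rfl
      have hr : ∫ ω, phi a n t ((univ : Finset (Fin n)).val.map
          (fun i : Fin n => toSite (NN n) hN (X (i : ℕ) ω))) ∂P = Av (NN n) n (phi a n t) := by
        rw [← hround.1 Ω P X hX hind hlaw (NN n) hN n (phi a n t)]
        congr 1; funext ω
        exact congrArg _ (Helper35.Matching.map_coe_aux n (fun i => toSite (NN n) hN (X i ω))).symm
      have hm0 : Measurable (fun ω => phi a n t ((univ : Finset (Fin n)).val.map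
          (fun i : Fin n => toSite (NN n) hN (X (i : ℕ) ω)))) := by
        have hm1 : Measurable (fun ω => (fun i : Fin n => toSite (NN n) hN (X (i : ℕ) ω))) :=
          measurable_pi_lambda _ fun i => (Helper35.Matching.measurable_toSite _ hN).comp (hX i)
        have hm2 : Measurable (fun v : Fin n → Site (NN n) => phi a n t ((univ : Finset (Fin n)).val.map v)) :=
          measurable_of_finite _
        exact hm2.comp hm1
      rw [← hr, ← integral_sub]
      rotate_left
      · refine Integrable.of_bound (C := 1) ?_ ?_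
        · refine Measurable.aestronglyMeasurable ?_
          refine Complex.measurable_exp.comp (measurable_const.mul ?_)
          exact Complex.measurable_ofReal.comp ((hYm k).const_mul t)
        · refine Eventually.of_forall fun ω => ?_
          rw [mul_comm, Complex.norm_exp_ofReal_mul_I]
      · exact Integrable.of_bound (C := 1) hm0.aestronglyMeasurable
          (Eventually.of_forall fun ω => norm_phi a n t _)
      · have hbound : ∀ᵐ ω ∂P, ‖Complex.exp (Complex.I * ((t * ((Mu X k ω - A k) / B k) : ℝ) : ℂ))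
            - phi a n t ((univ : Finset (Fin n)).val.map
              (fun i : Fin n => toSite (NN n) hN (X (i : ℕ) ω)))‖ ≤ |t| / c₁ * (1 / (n : ℝ)) := by
          filter_upwards [hmem] with ω hω
          unfold phi
          refine (norm_exp_sub_exp _ _).trans ((min_le_right _ _).trans ?_)
          have hd := dist_bound hround hscale hform hlip X k ω (NN n) hN (hn n) hpos hω
          rw [hNh] at hd
          set M' := MF ∅ (((univ : Finset (Fin n)).val.map
              (fun i : Fin n => toSite (NN n) hN (X (i : ℕ) ω))).map (pos (hn n))) with hM'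
          have hd' : |Real.sqrt n * Mu X k ω - M'| ≤ n * hn n := hd
          have e : t * ((Mu X k ω - A k) / B k) - t * (M' - a n) / bb MF n
              = t * (Real.sqrt n * Mu X k ω - M') / bb MF n := by
            rw [hAk, hBk]; field_simp; ring
          rw [e, abs_div, abs_mul, abs_of_pos hbpos]
          have hhn : hn n = Real.sqrt n / NN n := rfl
          have hNR : (0 : ℝ) < NN n := by exact_mod_cast hN
          have h4' : (n : ℝ) ^ 4 ≤ NN n := by exact_mod_cast h4
          have hn1 : (1 : ℝ) ≤ n := by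
            have : 1 ≤ n := by omega
            exact_mod_cast this
          calc |t| * |Real.sqrt n * Mu X k ω - M'| / bb MF n
              ≤ |t| * (n * hn n) / (c₁ * Real.sqrt n) := by gcongr
            _ = |t| / c₁ * (n / NN n) := by rw [hhn]; field_simp
            _ ≤ |t| / c₁ * (1 / (n : ℝ)) := by
                refine mul_le_mul_of_nonneg_left ?_ (by positivity)
                rw [div_le_div_iff₀ hNR hn0]
                have : (n : ℝ) * n ≤ (n : ℝ) ^ 4 := by nlinarith [sq_nonneg ((n : ℝ)), mul_self_nonneg ((n : ℝ) - 1), mul_le_mul hn1 hn1 (by norm_num) (by linarith)]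
                linarith
        refine (norm_integral_le_of_norm_le_const hbound).trans (le_of_eq ?_)
        simp
    have := hdiff.add h3
    simpa using this
  -- Lévy's theorem
  let μ : ℕ → ProbabilityMeasure ℝ := fun k =>
    ⟨P.map (fun ω => (Mu X k ω - A k) / B k), Measure.isProbabilityMeasure_map (hYm k).aemeasurable⟩
  let μ₀ : ProbabilityMeasure ℝ := ⟨gaussianReal 0 1, inferInstance⟩
  have hμ : Tendsto μ atTop (𝓝 μ₀) := by
    rw [ProbabilityMeasure.tendsto_iff_tendsto_charFun]
    intro t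
    have h0 : charFun (μ₀ : Measure ℝ) t = Complex.exp (-(t ^ 2 / 2 : ℝ)) := by
      show charFun (gaussianReal 0 1) t = _
      rw [charFun_gaussianReal]
      congr 1
      push_cast
      simp
    rw [h0]
    refine (hchar t).congr fun k => ?_
    show _ = charFun (P.map (fun ω => (Mu X k ω - A k) / B k)) t
    rw [charFun_apply_real, integral_map (hYm k).aemeasurable]
    · congr 1; funext ω; congr 1; push_cast; ring
    · refine Measurable.aestronglyMeasurable ?_
      fun_prop
  rw [ProbabilityMeasure.tendsto_iff_forall_integral_tendsto] at hμ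
  intro f
  refine (hμ f).congr fun k => ?_
  show ∫ x, f x ∂(P.map (fun ω => (Mu X k ω - A k) / B k)) = _
  rw [integral_map (hYm k).aemeasurable f.continuous.measurable.aestronglyMeasurable]

end

end Pool.Agent.Helper70.Matching
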