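/-
MP_fb8750_pr / MP_72f242_pr: common definitions.  helper70.
-/
import Mathlib

set_option autoImplicit false
open Finset

namespace Pool.Agent.Helper70.Matching

noncomputable section

/-! ### A. Finite product expectation -/

/-- `w k` is a probability weight on `α` for every coordinate `k`. -/
structure IsWt {K α : Type} [Fintype α] (w : K → α → ℝ) : Prop where
  nonneg : ∀ k a, 0 ≤ w k a
  sum_one : ∀ k, ∑ a, w k a = 1

/-- product weight of a configuration -/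
def PW {K α : Type} [Fintype K] (w : K → α → ℝ) (u : K → α) : ℝ := ∏ k, w k (u k)

/-- expectation under the product weight (values in any real vector space) -/
def Ex {K α E : Type} [Fintype K] [DecidableEq K] [Fintype α] [AddCommGroup E] [Module ℝ E]
    (w : K → α → ℝ) (f : (K → α) → E) : E := ∑ u, PW w u • f u

/-- conditional expectation given the coordinates in `A` (the others are averaged out) -/
def PE {K α E : Type} [Fintype K] [DecidableEq K] [Fintype α] [AddCommGroup E] [Module ℝ E]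
    (w : K → α → ℝ) (A : Finset K) (f : (K → α) → E) (u : K → α) : E :=
  Ex w (fun v => f (A.piecewise u v))

/-- variance -/
def Vr {K α : Type} [Fintype K] [DecidableEq K] [Fintype α]
    (w : K → α → ℝ) (f : (K → α) → ℝ) : ℝ := Ex w (fun u => (f u - Ex w f) ^ 2)

/-- An `m`-adic hierarchy of boxes of levels `0..J` on the finite set `K`: `p i k` is the name of
the level `i` box containing `k`. -/
structure Hier {K κ : Type} [Fintype K] [DecidableEq K] [DecidableEq κ]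
    (p : ℕ → K → κ) (m J : ℕ) : Prop where
  inj : Function.Injective (p 0)
  refine : ∀ i < J, ∀ k k', p i k = p i k' → p (i + 1) k = p (i + 1) k'
  child : ∀ i < J, ∀ k,
    ((univ.filter (fun k' => p (i + 1) k' = p (i + 1) k)).image (p i)).card ≤ m ^ 2
  count : ∀ i ≤ J, (univ.image (p i)).card * m ^ (2 * i) ≤ Fintype.card K

/-! ### B. Matchings of finite multisets in a metric space -/

/-- `PM P c`: the multiset `P` has a perfect matching of total length `c`. -/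
inductive PM {E : Type} [PseudoMetricSpace E] : Multiset E → ℝ → Prop
  | nil : PM 0 0
  | cons (x y : E) {P : Multiset E} {c : ℝ} (h : PM P c) : PM (x ::ₘ y ::ₘ P) (dist x y + c)

/-- minimum matching length of `P` when any number of points of `P` may be matched to points of the
free boundary `B`; for `B = ∅` this is the minimum perfect matching length. -/
def MF {E : Type} [PseudoMetricSpace E] (B : Set E) (P : Multiset E) : ℝ :=
  sInf {c | ∃ Z : Multiset E, (∀ z ∈ Z, z ∈ B) ∧ PM (P + Z) c}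

/-- every even multiset of points of `B` can be matched at cost at most `Λ` -/
def PairCost {E : Type} [PseudoMetricSpace E] (B : Set E) (Λ : ℝ) : Prop :=
  ∀ Z : Multiset E, (∀ z ∈ Z, z ∈ B) → Even (Multiset.card Z) → ∃ c ≤ Λ, PM Z c

/-- `b` separates `I` from its complement along geodesics -/
def Cut {E : Type} [PseudoMetricSpace E] (I b : Set E) : Prop :=
  ∀ x ∈ I, ∀ y, y ∉ I → ∃ z ∈ b, dist x z + dist z y ≤ dist x y

/-! ### Rectangles in `ℂ` -/

/-- a rectangle `[a,a'] × [c,c']` -/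
structure Rect where
  a : ℝ
  a' : ℝ
  c : ℝ
  c' : ℝ

/-- nonempty closed rectangle -/
def Rect.ok (D : Rect) : Prop := D.a ≤ D.a' ∧ D.c ≤ D.c'

/-- open rectangle -/
def Rect.I (D : Rect) : Set ℂ := {z | D.a < z.re ∧ z.re < D.a' ∧ D.c < z.im ∧ z.im < D.c'}

/-- boundary of the rectangle -/
def Rect.bd (D : Rect) : Set ℂ :=
  {z | D.a ≤ z.re ∧ z.re ≤ D.a' ∧ D.c ≤ z.im ∧ z.im ≤ D.c' ∧
    (z.re = D.a ∨ z.re = D.a' ∨ z.im = D.c ∨ z.im = D.c')}

/-- half perimeter -/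
def Rect.size (D : Rect) : ℝ := (D.a' - D.a) + (D.c' - D.c)

/-- The properties of a planar functional with free boundary used by the general theorem.
`Fn B P` is the value on the point multiset `P` with free boundary `B` (`B = ∅`: no boundary). -/
structure Good (Fn : Set ℂ → Multiset ℂ → ℝ) (C : ℝ) : Prop where
  one_le : 1 ≤ C
  nonneg : ∀ B P, 0 ≤ Fn B P
  upper : ∀ (B : Set ℂ) (P : Multiset ℂ) (z₀ : ℂ) (D : ℝ), z₀ ∈ B → (∀ x ∈ P, dist x z₀ ≤ D) →
    Fn B P ≤ C * D * Multiset.card P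
  lower : ∀ (B : Set ℂ) (s : Finset ℂ) (ρ : ℝ), B.Nonempty → 0 ≤ ρ →
    (∀ x ∈ s, ∀ y ∈ s, x ≠ y → 2 * ρ ≤ dist x y) → (∀ x ∈ s, ∀ z ∈ B, ρ ≤ dist x z) →
    ρ * s.card ≤ Fn B s.val
  loc : ∀ (D₁ D₂ : Rect) (W : Set ℂ) (Δ : ℝ) (O A₁ A₂ A₁' A₂' : Multiset ℂ),
    D₁.ok → D₂.ok → Disjoint D₁.I D₂.I → Disjoint D₁.bd D₂.I → Disjoint W D₁.I → Disjoint W D₂.I →
    (∀ x ∈ D₁.bd ∪ D₂.bd, ∀ y ∈ D₁.bd ∪ D₂.bd, dist x y ≤ Δ) →
    (∀ x ∈ O, x ∉ D₁.I ∧ x ∉ D₂.I) →
    (∀ x ∈ A₁, x ∈ D₁.I) → (∀ x ∈ A₂, x ∈ D₂.I) → (∀ x ∈ A₁', x ∈ D₁.I) → (∀ x ∈ A₂', x ∈ D₂.I) →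
    (W.Nonempty ∨ Even (Multiset.card (O + A₁' + A₂'))) →
    (Even (Multiset.card (A₁ + A₂ + A₁' + A₂')) ∨ (W ∩ (D₁.bd ∪ D₂.bd)).Nonempty) →
    Fn W (O + A₁ + A₂) - Fn D₁.bd A₁ - Fn D₂.bd A₂ ≤
      Fn W (O + A₁' + A₂') - Fn D₁.bd A₁' - Fn D₂.bd A₂' + C * (D₁.size + D₂.size + Δ)

/-! ### C. The site model -/

/-- the sites of an `N × N` grid -/
abbrev Site (N : ℕ) := Fin N × Fin N

/-- position of a site, grid spacing `h` -/
def pos (h : ℝ) {N : ℕ} (v : Site N) : ℂ := ⟨((v.1 : ℕ) + 1 / 2 : ℝ) * h, ((v.2 : ℕ) + 1 / 2 : ℝ) * h⟩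

/-- Bernoulli weights -/
def bw (p : ℝ) {V : Type} : V → Bool → ℝ := fun _ b => if b then p else 1 - p

/-- points of the configuration `ω` in `A` -/
def pts (h : ℝ) {N : ℕ} (A : Finset (Site N)) (ω : Site N → Bool) : Multiset ℂ :=
  (A.filter (fun v => ω v = true)).val.map (pos h)

/-- number of points of `ω` in `A` -/
def cnt {V : Type} (A : Finset V) (ω : V → Bool) : ℕ := (A.filter (fun v => ω v = true)).card

/-- a box of sites `[x0,x1) × [y0,y1)` -/
structure NBox where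
  x0 : ℕ
  x1 : ℕ
  y0 : ℕ
  y1 : ℕ

def NBox.sites (D : NBox) (N : ℕ) : Finset (Site N) :=
  univ.filter (fun v => D.x0 ≤ (v.1 : ℕ) ∧ (v.1 : ℕ) < D.x1 ∧ D.y0 ≤ (v.2 : ℕ) ∧ (v.2 : ℕ) < D.y1)

def NBox.rect (D : NBox) (h : ℝ) : Rect := ⟨D.x0 * h, D.x1 * h, D.y0 * h, D.y1 * h⟩

/-- box inclusion -/
def NBox.sub (D E : NBox) : Prop := E.x0 ≤ D.x0 ∧ D.x1 ≤ E.x1 ∧ E.y0 ≤ D.y0 ∧ D.y1 ≤ E.y1

def NBox.ok (D : NBox) : Prop := D.x0 ≤ D.x1 ∧ D.y0 ≤ D.y1

/-- the block with index `j`; `rs` sites per block side -/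
def blk (rs : ℕ) {B : ℕ} (j : Fin B × Fin B) : NBox :=
  ⟨j.1 * rs, (j.1 + 1) * rs, j.2 * rs, (j.2 + 1) * rs⟩

/-- block functional -/
def Fj (Fn : Set ℂ → Multiset ℂ → ℝ) (h : ℝ) (rs : ℕ) {B N : ℕ} (j : Fin B × Fin B)
    (ω : Site N → Bool) : ℝ :=
  Fn ((blk rs j).rect h).bd (pts h ((blk rs j).sites N) ω)

/-- number of points in block `j` -/
def Nj (rs : ℕ) {B N : ℕ} (j : Fin B × Fin B) (ω : Site N → Bool) : ℕ :=
  cnt ((blk rs j).sites N) ω

/-- the global functional -/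
def Mw (Fn : Set ℂ → Multiset ℂ → ℝ) (h : ℝ) {N : ℕ} (ω : Site N → Bool) : ℝ :=
  Fn ∅ (pts h univ ω)

/-- total number of points -/
def Nw {N : ℕ} (ω : Site N → Bool) : ℕ := cnt univ ω

/-- sum of the block functionals -/
def Sw (Fn : Set ℂ → Multiset ℂ → ℝ) (h : ℝ) (rs B : ℕ) {N : ℕ} (ω : Site N → Bool) : ℝ :=
  ∑ j : Fin B × Fin B, Fj Fn h rs j ω

/-- expectation under the Bernoulli(`p`) field conditioned on an even number of points -/
def Ee (p : ℝ) {N : ℕ} {E : Type} [AddCommGroup E] [Module ℝ E] (f : (Site N → Bool) → E) : E :=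
  (Ex (bw p) (fun ω : Site N → Bool => if Even (Nw ω) then (1 : ℝ) else 0))⁻¹ •
    Ex (bw p) (fun ω : Site N → Bool => if Even (Nw ω) then f ω else 0)

/-! ### Averages over tuples of sites -/

/-- the average of `φ` over all `k`-tuples of sites (as multisets) -/
def Av (N k : ℕ) (φ : Multiset (Site N) → ℂ) : ℂ :=
  (((N : ℂ) ^ 2) ^ k)⁻¹ * ∑ v : Fin k → Site N, φ ((univ : Finset (Fin k)).val.map v)

/-! ### The parameters as functions of `n` -/

/-- blocks per side -/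
def Bn (n : ℕ) : ℕ := ⌊(n : ℝ) ^ ((19 : ℝ) / 40)⌋₊

/-- unit-size sub-boxes per block side -/
def kn (n : ℕ) : ℕ := ⌊Real.sqrt n / Bn n⌋₊

/-- sites per block side -/
def rsn (n : ℕ) : ℕ := kn n * n.factorial

/-- sites per side -/
def NN (n : ℕ) : ℕ := Bn n * rsn n

/-- grid spacing; note that the Bernoulli parameter is `p = h²` -/
def hn (n : ℕ) : ℝ := Real.sqrt n / NN n

end

end Pool.Agent.Helper70.Matching
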