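import Pool.Agent.Helper70.Matching.Specs4

set_option autoImplicit false
set_option linter.unusedSectionVars false
open Finset Filter Topology

namespace Pool.Agent.Helper70.Matching

noncomputable section

lemma isWt_bw {V : Type} {p : ℝ} (h0 : 0 ≤ p) (h1 : p ≤ 1) : IsWt (bw p : V → Bool → ℝ) where
  nonneg := fun k a => by
    unfold bw; split_ifs
    · exact h0
    · linarith
  sum_one := fun k => by simp [bw]

/-- probability of an even number of points -/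
def Pev (p : ℝ) (N : ℕ) : ℝ :=
  Ex (bw p) (fun ω : Site N → Bool => if Even (Nw ω) then (1 : ℝ) else 0)

section
variable {N : ℕ} {p : ℝ}

lemma Pev_nonneg (h0 : 0 ≤ p) (h1 : p ≤ 1) : 0 ≤ Pev p N :=
  Ex_nonneg (isWt_bw h0 h1) fun ω => by split_ifs <;> norm_num

lemma Ee_eq {E : Type} [AddCommGroup E] [Module ℝ E] (f : (Site N → Bool) → E) :
    Ee p f = (Pev p N)⁻¹ • Ex (bw p) (fun ω : Site N → Bool => if Even (Nw ω) then f ω else 0) := rfl

lemma Ee_sub {E : Type} [AddCommGroup E] [Module ℝ E] (f g : (Site N → Bool) → E) :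
    Ee p (fun ω => f ω - g ω) = Ee p f - Ee p g := by
  simp only [Ee_eq]
  rw [← smul_sub, ← Ex_sub]
  congr 2; funext ω; split_ifs <;> simp

lemma Ee_mono (h0 : 0 ≤ p) (h1 : p ≤ 1) {f g : (Site N → Bool) → ℝ} (h : ∀ ω, f ω ≤ g ω) :
    Ee p f ≤ Ee p g := by
  simp only [Ee_eq, smul_eq_mul]
  refine mul_le_mul_of_nonneg_left (Ex_mono (isWt_bw h0 h1) fun ω => ?_)
    (inv_nonneg.mpr (Pev_nonneg h0 h1))
  split_ifs
  · exact h ω
  · exact le_rfl

lemma Ee_nonneg (h0 : 0 ≤ p) (h1 : p ≤ 1) {f : (Site N → Bool) → ℝ} (h : ∀ ω, 0 ≤ f ω) :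
    0 ≤ Ee p f := by
  simp only [Ee_eq, smul_eq_mul]
  refine mul_nonneg (inv_nonneg.mpr (Pev_nonneg h0 h1)) (Ex_nonneg (isWt_bw h0 h1) fun ω => ?_)
  split_ifs
  · exact h ω
  · exact le_rfl

lemma Ee_mul_left (c : ℝ) (f : (Site N → Bool) → ℝ) :
    Ee p (fun ω => c * f ω) = c * Ee p f := by
  simp only [Ee_eq, smul_eq_mul]
  have : (fun ω : Site N → Bool => if Even (Nw ω) then c * f ω else 0)
      = fun ω => c * (if Even (Nw ω) then f ω else 0) := by
    funext ω; split_ifs <;> simp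
  rw [this, Ex_mul_left]; ring

lemma norm_Ee_le (h0 : 0 ≤ p) (h1 : p ≤ 1) (f : (Site N → Bool) → ℂ) :
    ‖Ee p f‖ ≤ Ee p (fun ω => ‖f ω‖) := by
  simp only [Ee_eq]
  rw [norm_smul, smul_eq_mul, Real.norm_of_nonneg (inv_nonneg.mpr (Pev_nonneg h0 h1))]
  refine mul_le_mul_of_nonneg_left ?_ (inv_nonneg.mpr (Pev_nonneg h0 h1))
  refine (norm_Ex_le (isWt_bw h0 h1) _).trans (le_of_eq ?_)
  congr 1; funext ω; split_ifs <;> simp

end

lemma norm_exp_sub_exp (a b : ℝ) :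
    ‖Complex.exp (Complex.I * (a : ℂ)) - Complex.exp (Complex.I * (b : ℂ))‖ ≤ min 2 |a - b| := by
  refine le_min ?_ ?_
  · refine (norm_sub_le _ _).trans ?_
    rw [mul_comm Complex.I, mul_comm Complex.I, Complex.norm_exp_ofReal_mul_I,
      Complex.norm_exp_ofReal_mul_I]
    norm_num
  · have : Complex.exp (Complex.I * (a : ℂ)) - Complex.exp (Complex.I * (b : ℂ))
        = Complex.exp (b * Complex.I) * (Complex.exp (Complex.I * ((a - b : ℝ) : ℂ)) - 1) := by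
      rw [mul_sub, ← Complex.exp_add, mul_one]
      congr 1
      · congr 1; push_cast; ring
      · congr 1; ring
    rw [this, norm_mul, Complex.norm_exp_ofReal_mul_I, one_mul]
    exact Real.norm_exp_I_mul_ofReal_sub_one_le

/-- JCLT from its ingredients -/
theorem jclt (h1 : Spec_addSeq) (h2 : Spec_bbLower) (h3 : Spec_sumJCLT) (h4 : Spec_asymp) :
    Spec_JCLT := by
  intro Fn C hF
  obtain ⟨-, -, -, -, -, hev⟩ := h4
  obtain ⟨c₁, hc₁, hbb⟩ := h2 Fn C hF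
  -- near minimisers
  set f : ℕ → ℝ → ℝ := fun n c => Ee (hn n ^ 2) (fun ω : Site (NN n) → Bool =>
      min 1 (|Gw Fn (hn n) (rsn n) (Bn n) ω - c| / Real.sqrt n)) with hf
  have hmin : ∀ n : ℕ, ∃ c : ℝ, (hn n ^ 2 ≤ 1 / 2 → ∀ c', f n c ≤ f n c' + 1 / ((n : ℝ) + 1)) := by
    intro n
    by_cases hn2 : hn n ^ 2 ≤ 1 / 2
    · have hb : BddBelow (Set.range (f n)) := ⟨0, by
        rintro _ ⟨c, rfl⟩
        exact Ee_nonneg (sq_nonneg _) (by linarith) fun ω =>
          le_min zero_le_one (div_nonneg (abs_nonneg _) (Real.sqrt_nonneg _))⟩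
      have hpos : (0 : ℝ) < 1 / ((n : ℝ) + 1) := by positivity
      obtain ⟨_, ⟨c, rfl⟩, hlt⟩ := exists_lt_of_csInf_lt (Set.range_nonempty (f n))
        (show sInf (Set.range (f n)) < sInf (Set.range (f n)) + 1 / ((n : ℝ) + 1) by linarith)
      refine ⟨c, fun _ c' => ?_⟩
      have := csInf_le hb ⟨c', rfl⟩
      linarith
    · exact ⟨0, fun h => absurd h hn2⟩
  choose c hc using hmin
  refine ⟨fun n => c n + Ex (bw (hn n ^ 2))
    (fun ω : Site (NN n) → Bool => Sw Fn (hn n) (rsn n) (Bn n) ω), fun T ε hT hε => ?_⟩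
  set K : ℝ := 2 + T / c₁ with hK
  have hKpos : 0 < K := by positivity
  have hlim : Tendsto (fun n : ℕ => 1 / ((n : ℝ) + 1)) atTop (𝓝 0) :=
    tendsto_one_div_add_atTop_nhds_zero_nat
  have e1 := h1 Fn C hF (ε / (4 * K)) (by positivity)
  have e2 : ∀ᶠ n : ℕ in atTop, 1 / ((n : ℝ) + 1) < ε / (4 * K) :=
    hlim.eventually_lt_const (by positivity)
  have e3 := h3 Fn C hF T (ε / 2) hT (by positivity)
  filter_upwards [e1, e2, e3, hev, hbb, eventually_gt_atTop 0] with n e1 e2 e3 hev hbb hn0 t u ht hu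
  obtain ⟨c', hc'⟩ := e1
  obtain ⟨hpos, hhalf, hNN, -⟩ := hev
  have hsq0 : (0 : ℝ) ≤ hn n ^ 2 := sq_nonneg _
  have hsq1 : hn n ^ 2 ≤ 1 := by linarith
  have hsn : 0 < Real.sqrt n := Real.sqrt_pos.mpr (by exact_mod_cast hn0)
  have hb : 0 < bb Fn n := lt_of_lt_of_le (by positivity) hbb
  have hfc : f n (c n) ≤ ε / (2 * K) := by
    have := hc n hhalf c'
    have h' : f n c' ≤ ε / (4 * K) := hc'
    have : f n (c n) ≤ ε / (4 * K) + ε / (4 * K) := by linarith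
    refine this.trans (le_of_eq ?_)
    field_simp; ring
  set S0 := Ex (bw (hn n ^ 2)) (fun ω : Site (NN n) → Bool => Sw Fn (hn n) (rsn n) (Bn n) ω)
  set θ : (Site (NN n) → Bool) → ℝ := fun ω =>
    t * (Mw Fn (hn n) ω - (c n + S0) - alph Fn n * ((Nw ω : ℝ) - n)) / bb Fn n
          + u * ((Nw ω : ℝ) - n) / Real.sqrt n with hθ
  set θ0 : (Site (NN n) → Bool) → ℝ := fun ω =>
    t * (Sw Fn (hn n) (rsn n) (Bn n) ω - S0 - alph Fn n * ((Nw ω : ℝ) - n)) / bb Fn n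
          + u * ((Nw ω : ℝ) - n) / Real.sqrt n with hθ0
  have hdiff : ∀ ω, θ ω - θ0 ω = t * (Gw Fn (hn n) (rsn n) (Bn n) ω - c n) / bb Fn n := by
    intro ω; simp only [hθ, hθ0, Gw]; ring
  have hpt : ∀ ω, ‖Complex.exp (Complex.I * (θ ω : ℂ)) - Complex.exp (Complex.I * (θ0 ω : ℂ))‖
      ≤ K * min 1 (|Gw Fn (hn n) (rsn n) (Bn n) ω - c n| / Real.sqrt n) := by
    intro ω
    refine (norm_exp_sub_exp _ _).trans ?_
    rw [hdiff]
    set y := |Gw Fn (hn n) (rsn n) (Bn n) ω - c n| / Real.sqrt n with hy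
    have hy0 : 0 ≤ y := by positivity
    have h1 : |t * (Gw Fn (hn n) (rsn n) (Bn n) ω - c n) / bb Fn n| ≤ (T / c₁) * y := by
      rw [abs_div, abs_mul, abs_of_pos hb, hy]
      rw [div_le_iff₀ hb]
      calc |t| * |Gw Fn (hn n) (rsn n) (Bn n) ω - c n|
          ≤ T * |Gw Fn (hn n) (rsn n) (Bn n) ω - c n| :=
            mul_le_mul_of_nonneg_right ht (abs_nonneg _)
        _ = T / c₁ * (|Gw Fn (hn n) (rsn n) (Bn n) ω - c n| / Real.sqrt n) * (c₁ * Real.sqrt n) := by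
            field_simp
        _ ≤ _ := mul_le_mul_of_nonneg_left hbb (by positivity)
    rcases le_total y 1 with hy1 | hy1
    · rw [min_eq_right hy1]
      refine (min_le_right _ _).trans (h1.trans ?_)
      rw [hK]; nlinarith
    · rw [min_eq_left hy1, mul_one]
      refine (min_le_left _ _).trans ?_
      rw [hK]; have : 0 ≤ T / c₁ := by positivity
      linarith
  have hA : ‖Ee (hn n ^ 2) (fun ω : Site (NN n) → Bool => Complex.exp (Complex.I * (θ ω : ℂ)))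
      - Ee (hn n ^ 2) (fun ω : Site (NN n) → Bool => Complex.exp (Complex.I * (θ0 ω : ℂ)))‖ ≤ ε / 2 := by
    rw [← Ee_sub]
    refine (norm_Ee_le hsq0 hsq1 _).trans ((Ee_mono hsq0 hsq1 hpt).trans ?_)
    rw [Ee_mul_left]
    calc K * f n (c n) ≤ K * (ε / (2 * K)) := mul_le_mul_of_nonneg_left hfc hKpos.le
      _ = ε / 2 := by field_simp
  have hB := e3 t u ht hu
  have := norm_sub_le_norm_sub_add_norm_sub
    (Ee (hn n ^ 2) (fun ω : Site (NN n) → Bool => Complex.exp (Complex.I * (θ ω : ℂ))))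
    (Ee (hn n ^ 2) (fun ω : Site (NN n) → Bool => Complex.exp (Complex.I * (θ0 ω : ℂ))))
    (Complex.exp (-((t ^ 2 + u ^ 2) / 2 : ℝ)))
  refine this.trans ?_
  have hB' : ‖Ee (hn n ^ 2) (fun ω : Site (NN n) → Bool => Complex.exp (Complex.I * (θ0 ω : ℂ)))
      - Complex.exp (-((t ^ 2 + u ^ 2) / 2 : ℝ))‖ ≤ ε / 2 := hB
  linarith

end

end Pool.Agent.Helper70.Matching
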