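import Pool.Agent.Helper70.Matching.Assembly2
import Pool.Agent.Helper94.Matching.Core
import Pool.Agent.Helper94.Matching.LocMF
import Pool.Agent.Helper94.Matching.Tv
import Pool.Agent.Helper94.Matching.BlockCLT
import Pool.Agent.Helper32.Matching.Proj
import Pool.Agent.Helper63.Matching.Noise
import Pool.Agent.Helper3.Match.PairRect
import Pool.Agent.Helper3.Match.Glue
import Pool.Agent.Helper3.Match.Pair
import Pool.Agent.Helper11.Matching.CutPM
import Pool.Agent.Helper11.Matching.VarLower
import Pool.Agent.Helper66.Matching.Formula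
import Pool.Agent.Helper89.Matching.B4b
import Pool.Agent.Helper89.Matching.C1
import Pool.Agent.Helper77.Matching.OscG
import Pool.Agent.Helper77.Matching.Asymp
import Pool.Agent.Helper40.Matching.Law
import Pool.Agent.Helper31.Matching.C5
import Pool.Agent.Helper31.Matching.C6a
import Pool.Agent.Helper42.Match.Gap
import Pool.Agent.Helper16.Matching.C10
import Pool.Agent.Helper80.Matching.SumJCLT
import Pool.Agent.Helper43.Matching.Subset
import Pool.Agent.Helper41.MatchD3.Final
import Pool.Agent.Helper35.Matching.D4

set_option autoImplicit false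
open Finset Filter Topology MeasureTheory ProbabilityTheory

namespace Pool.Agent.Helper70.Matching

noncomputable section

lemma half_le_Pev (N : ℕ) (p : ℝ) (h0 : 0 ≤ p) (h1 : p ≤ 1 / 2) : 1 / 2 ≤ Pev p N := by
  have h : Pev p N = Zp p (univ : Finset (Site N)) false := by
    unfold Pev Zp
    congr 1; funext ω
    unfold par Nw
    by_cases he : Even (cnt univ ω) <;> simp [he]
  rw [h, Helper94.Matching.Zp_false h0 (by linarith)]
  have : 0 ≤ (1 - 2 * p) ^ (univ : Finset (Site N)).card := pow_nonneg (by linarith) _
  linarith

theorem goodMF : Spec_goodMF :=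
  Helper89.Matching.goodMF Helper3.Match.pairRect Helper11.Matching.cutPM Helper11.Matching.cutRect
    (Helper94.Matching.locMF Helper11.Matching.cutPM)

theorem proj : Spec_proj := Helper32.Matching.proj Helper94.Matching.core

theorem additive : Spec_additive :=
  Helper31.Matching.additive proj Helper63.Matching.noise
    (Helper77.Matching.oscG Helper89.Matching.osc Helper3.Match.glueSpec)
    Helper40.Matching.law (Helper94.Matching.tv Helper40.Matching.law)

theorem bbLower : Spec_bbLower :=
  Helper16.Matching.bbLower
    (Helper11.Matching.varLower Helper31.Matching.probLower Helper31.Matching.twoEvent Helper42.Match.gap)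
    Helper77.Matching.asymp

theorem addSeq : Spec_addSeq := Helper16.Matching.addSeq additive Helper77.Matching.asymp

theorem final (hmom : Spec_moments)
    (Ω : Type) [MeasurableSpace Ω] (P : Measure Ω) [IsProbabilityMeasure P]
    (X : ℕ → Ω → ℝ × ℝ) (hX : ∀ i, Measurable (X i)) (hind : iIndepFun X P)
    (hlaw : ∀ i, P.map (X i) = volume.restrict (Set.Icc (0:ℝ) 1 ×ˢ Set.Icc (0:ℝ) 1)) :
    ∃ a b : ℕ → ℝ, (∀ k, 0 < b k) ∧
      ∀ f : BoundedContinuousFunction ℝ ℝ,
        Tendsto (fun k : ℕ => ∫ ω, f ((Mu X k ω - a k) / b k) ∂P)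
          atTop (𝓝 (∫ x, f x ∂(gaussianReal 0 1))) := by
  have hJ : Spec_JCLT := jclt addSeq bbLower
    (Helper80.Matching.sumJCLT Helper94.Matching.blockCLT hmom Helper77.Matching.asymp bbLower)
    Helper77.Matching.asymp
  have hs := sites_clt hJ goodMF Helper89.Matching.lipMF bbLower Helper77.Matching.asymp hmom
    half_le_Pev Helper43.Matching.subset Helper3.Match.pair
    (Helper41.MatchD3.depoisson Helper41.MatchD3.boundA)
  exact main_clt hs Helper35.Matching.round Helper35.Matching.scale Helper66.Matching.formula
    Helper89.Matching.lipMF bbLower goodMF Helper77.Matching.asymp Ω P X hX hind hlaw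

end

end Pool.Agent.Helper70.Matching
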