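import Pool.Agent.Helper70.Matching.Basic

/-! Packet statements, first batch (groups A and B).  helper70. -/

set_option autoImplicit false
open Finset

namespace Pool.Agent.Helper70.Matching

noncomputable section

/-! ### Group A: Theorem A -/

/-- Packet A1 (core lemma). A sum `S = ∑ Y_i` of at most `m²` independent centred variables bounded by
`C0 r` that is `L²`-close to a variable `X` bounded by `C0 m r` has small variance per summand. -/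
def Spec_core : Prop :=
  ∀ C0 v0 : ℝ, 0 < C0 → 0 < v0 → ∃ (m0 : ℕ) (Ac : ℝ), 0 ≤ Ac ∧ ∀ m : ℕ, m0 ≤ m →
  ∀ (K α ι : Type) [Fintype K] [DecidableEq K] [Fintype α] [DecidableEq ι] (w : K → α → ℝ), IsWt w →
  ∀ (T : Finset ι) (A : ι → Finset K) (Y : ι → (K → α) → ℝ) (X : (K → α) → ℝ) (r : ℝ), 0 < r →
    T.card ≤ m ^ 2 → (∀ i ∈ T, ∀ j ∈ T, i ≠ j → Disjoint (A i) (A j)) →
    (∀ i ∈ T, DependsOn (Y i) (A i : Set K)) → (∀ i ∈ T, Ex w (Y i) = 0) →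
    (∀ i ∈ T, ∀ u, |Y i u| ≤ C0 * r) → (∀ u, |X u| ≤ C0 * m * r) →
    ∑ i ∈ T, Ex w (fun u => (Y i u) ^ 2) ≤
      v0 * m ^ 2 * r ^ 2 + Ac * Ex w (fun u => (X u - ∑ i ∈ T, Y i u) ^ 2)

/-- Packet A2 (flat scale argument). -/
def Spec_proj : Prop :=
  ∀ C0 v0 : ℝ, 0 < C0 → 0 < v0 → ∃ m J : ℕ, 2 ≤ m ∧ 1 ≤ J ∧
  ∀ (K α κ : Type) [Fintype K] [DecidableEq K] [Fintype α] [DecidableEq κ] (w : K → α → ℝ), IsWt w →
  ∀ (p : ℕ → K → κ), Hier p m J → ∀ G : (K → α) → ℝ,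
    (∀ i ≤ J, ∀ c, ∀ u u' : K → α, (∀ k, p i k ≠ c → u k = u' k) → |G u - G u'| ≤ C0 * (m : ℝ) ^ i) →
    ∑ k, Vr w (PE w {k} G) ≤ v0 * Fintype.card K

/-- Packet A3 (noise operator). -/
def Spec_noise : Prop :=
  ∀ (K α : Type) [Fintype K] [DecidableEq K] [Fintype α] (w : K → α → ℝ), IsWt w →
  ∀ (G : (K → α) → ℝ) (v C1 θ : ℝ), 0 < θ → θ < 1 → 0 ≤ v →
    (∀ (A : Finset K) (u : K → α),
      ∑ k, Vr w (PE w {k} (fun x => G (A.piecewise x u))) ≤ v * Fintype.card K) →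
    (∀ (k : K) (u u' : K → α), (∀ k', k' ≠ k → u k' = u' k') → |G u - G u'| ≤ C1) →
    Vr w G ≤ 2 * (v / θ + θ * C1 ^ 2) * Fintype.card K

/-- Theorem A. -/
def Spec_thmA : Prop :=
  ∀ C0 ε : ℝ, 0 < C0 → 0 < ε → ∃ m J : ℕ, 2 ≤ m ∧ 1 ≤ J ∧
  ∀ (K α κ : Type) [Fintype K] [DecidableEq K] [Fintype α] [DecidableEq κ] (w : K → α → ℝ), IsWt w →
  ∀ (p : ℕ → K → κ), Hier p m J → ∀ G : (K → α) → ℝ,
    (∀ i ≤ J, ∀ c, ∀ u u' : K → α, (∀ k, p i k ≠ c → u k = u' k) → |G u - G u'| ≤ C0 * (m : ℝ) ^ i) →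
    Vr w G ≤ ε * Fintype.card K

/-! ### Group B: matching geometry -/

section
variable {E : Type} [PseudoMetricSpace E]

end

/-- Packet B2: pairing on the boundary of a rectangle. -/
def Spec_pairRect : Prop :=
  (∀ (D : Rect), D.ok → PairCost D.bd (5 * D.size)) ∧
  (∀ (B₁ B₂ : Set ℂ) (Λ₁ Λ₂ Δ : ℝ), PairCost B₁ Λ₁ → PairCost B₂ Λ₂ → 0 ≤ Δ →
    (∀ x ∈ B₁ ∪ B₂, ∀ y ∈ B₁ ∪ B₂, dist x y ≤ Δ) → PairCost (B₁ ∪ B₂) (Λ₁ + Λ₂ + Δ))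

/-- Packet B3a: cutting a matching. -/
def Spec_cutPM : Prop :=
  ∀ (E : Type) [PseudoMetricSpace E] (I b : Set E) [DecidablePred (· ∈ I)], Cut I b →
    ∀ (P : Multiset E) (c : ℝ), PM P c →
    ∃ (Z : Multiset E) (c₁ c₂ : ℝ), (∀ z ∈ Z, z ∈ b) ∧ c₁ + c₂ ≤ c ∧
      PM (P.filter (· ∈ I) + Z) c₁ ∧ PM (P.filter (fun x => ¬ x ∈ I) + Z) c₂

/-- Packet B3b: rectangles are cut by their boundary. -/
def Spec_cutRect : Prop := ∀ D : Rect, D.ok → Cut D.I D.bd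

/-- Packet B4: the matching functional has all the required properties. -/
def Spec_goodMF : Prop := ∃ C : ℝ, Good MF C

/-- Packet B5: the formula of the frozen statement. -/
def Spec_formula : Prop :=
  ∀ (k : ℕ) (x : Fin (2 * k) → ℝ × ℝ),
    (⨅ σ : {σ : Equiv.Perm (Fin (2 * k)) // (∀ i, σ (σ i) = i) ∧ ∀ i, σ i ≠ i},
      (1/2 : ℝ) * ∑ i : Fin (2 * k),
        Real.sqrt (((x i).1 - (x (σ.1 i)).1) ^ 2 + ((x i).2 - (x (σ.1 i)).2) ^ 2))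
    = MF ∅ ((univ : Finset (Fin (2 * k))).val.map (fun i => (⟨(x i).1, (x i).2⟩ : ℂ)))

/-- Packet B6: Lipschitz dependence on the positions, and insertion of a pair. -/
def Spec_lipMF : Prop :=
  (∀ (ι : Type) [Fintype ι] (f g : ι → ℂ), Even (Fintype.card ι) →
    |MF ∅ ((univ : Finset ι).val.map f) - MF ∅ ((univ : Finset ι).val.map g)| ≤ ∑ i, dist (f i) (g i)) ∧
  (∀ (P : Multiset ℂ) (x y : ℂ), Even (Multiset.card P) →
    |MF ∅ (x ::ₘ y ::ₘ P) - MF ∅ P| ≤ dist x y)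

end

end Pool.Agent.Helper70.Matching
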