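import Pool.Agent.Helper70.Matching.Specs1
import Pool.Agent.Helper70.Matching.PMBasic

/-! Packet statements, second batch (matching functional).  helper70. -/

set_option autoImplicit false
open Finset

namespace Pool.Agent.Helper70.Matching

noncomputable section

/-- Packet B4a: locality of `MF` in an abstract metric space. -/
def Spec_locMF : Prop :=
  ∀ (E : Type) [PseudoMetricSpace E] (I₁ b₁ I₂ b₂ W : Set E) (Λ : ℝ), Cut I₁ b₁ → Cut I₂ b₂ →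
    Disjoint I₁ I₂ → Disjoint b₁ I₂ → Disjoint W I₁ → Disjoint W I₂ → b₁.Nonempty → b₂.Nonempty →
    PairCost (b₁ ∪ b₂) Λ →
    ∀ (O A₁ A₂ A₁' A₂' : Multiset E), (∀ x ∈ O, x ∉ I₁ ∧ x ∉ I₂) →
    (∀ x ∈ A₁, x ∈ I₁) → (∀ x ∈ A₂, x ∈ I₂) → (∀ x ∈ A₁', x ∈ I₁) → (∀ x ∈ A₂', x ∈ I₂) →
    (W.Nonempty ∨ Even (Multiset.card (O + A₁' + A₂'))) →
    (Even (Multiset.card (A₁ + A₂ + A₁' + A₂')) ∨ (W ∩ (b₁ ∪ b₂)).Nonempty) →
    MF W (O + A₁ + A₂) - MF b₁ A₁ - MF b₂ A₂ ≤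
      MF W (O + A₁' + A₂') - MF b₁ A₁' - MF b₂ A₂' + Λ

/-- Packet B4b: upper and lower bounds for `MF`. -/
def Spec_boundsMF : Prop :=
  (∀ (E : Type) [PseudoMetricSpace E] (B : Set E) (P : Multiset E) (z₀ : E) (D : ℝ), z₀ ∈ B →
    (∀ x ∈ P, dist x z₀ ≤ D) → MF B P ≤ D * Multiset.card P) ∧
  (∀ (B : Set ℂ) (s : Finset ℂ) (ρ : ℝ), B.Nonempty → 0 ≤ ρ →
    (∀ x ∈ s, ∀ y ∈ s, x ≠ y → 2 * ρ ≤ dist x y) → (∀ x ∈ s, ∀ z ∈ B, ρ ≤ dist x z) →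
    ρ * s.card ≤ MF B s.val)

end

end Pool.Agent.Helper70.Matching
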