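import Pool.Agent.Helper70.Matching.Specs2

/-! Packet statements, third batch (site model).  helper70. -/

set_option autoImplicit false
open Finset Filter Topology

namespace Pool.Agent.Helper70.Matching

noncomputable section

/-- `G = M - ∑_j F_j` -/
def Gw (Fn : Set ℂ → Multiset ℂ → ℝ) (h : ℝ) (rs B : ℕ) {N : ℕ} (ω : Site N → Bool) : ℝ :=
  Mw Fn h ω - Sw Fn h rs B ω

/-- Packet C1: two-box oscillation of `G`. -/
def Spec_osc : Prop :=
  ∀ (Fn : Set ℂ → Multiset ℂ → ℝ) (C : ℝ), Good Fn C →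
  ∀ (N B rs : ℕ) (h Λ : ℝ), N = B * rs → 0 < h →
  ∀ (D₁ D₂ : NBox) (j₁ j₂ : Fin B × Fin B), D₁.ok → D₂.ok → D₁.sub (blk rs j₁) → D₂.sub (blk rs j₂) →
    (D₁.x1 ≤ D₂.x0 ∨ D₂.x1 ≤ D₁.x0 ∨ D₁.y1 ≤ D₂.y0 ∨ D₂.y1 ≤ D₁.y0) →
    (j₁ = j₂ ∨ ∃ z, z ∈ (D₁.rect h).bd ∧ z ∈ (D₂.rect h).bd ∧
      z ∈ ((blk rs j₁).rect h).bd ∧ z ∈ ((blk rs j₂).rect h).bd) →
    (D₁.rect h).size ≤ Λ → (D₂.rect h).size ≤ Λ →
    (∀ x ∈ (D₁.rect h).bd ∪ (D₂.rect h).bd, ∀ y ∈ (D₁.rect h).bd ∪ (D₂.rect h).bd, dist x y ≤ Λ) →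
  ∀ ω ω' : Site N → Bool, (∀ v, v ∉ D₁.sites N → v ∉ D₂.sites N → ω v = ω' v) →
    Even (Nw ω) → Even (Nw ω') →
    Gw Fn h rs B ω ≤ Gw Fn h rs B ω' + 7 * C * Λ

/-! ### The tree coupling -/

/-- the cell of a site, `q` sites per cell side -/
def cellOf {N L : ℕ} (q : ℕ) (hN : N = L * q) (v : Site N) : Fin L × Fin L :=
  (⟨(v.1 : ℕ) / q, Nat.div_lt_of_lt_mul (by rw [mul_comm, ← hN]; exact v.1.2)⟩,
   ⟨(v.2 : ℕ) / q, Nat.div_lt_of_lt_mul (by rw [mul_comm, ← hN]; exact v.2.2)⟩)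

/-- the sites of cell `k` -/
def cellS (N : ℕ) {L : ℕ} (q : ℕ) (k : Fin L × Fin L) : Finset (Site N) := (blk q k).sites N

/-- extension by `false` of the edge variables; the root has no edge -/
def ext {L : ℕ} (S : Fin L × Fin L → Bool) (x y : ℕ) : Bool :=
  if h : (x < L ∧ y < L) ∧ ¬ (x = 0 ∧ y = 0) then S (⟨x, h.1.1⟩, ⟨y, h.1.2⟩) else false

/-- parity of cell `k`: sum of the edge variables at `k` (comb tree) -/
def bpar {L : ℕ} (S : Fin L × Fin L → Bool) (k : Fin L × Fin L) : Bool :=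
  xor (ext S k.1 k.2) (xor (ext S k.1 ((k.2 : ℕ) + 1))
    (if (k.2 : ℕ) = 0 then ext S ((k.1 : ℕ) + 1) 0 else false))

/-- parity of the number of points in `A` (`true` = odd) -/
def par {V : Type} (A : Finset V) (ω : V → Bool) : Bool := decide (¬ Even (cnt A ω))

/-- the corner sites of the cells -/
def crn (q : ℕ) {N : ℕ} (v : Site N) : Bool := decide ((v.1 : ℕ) % q = 0 ∧ (v.2 : ℕ) % q = 0)

/-- cell variables: edge coin, even configuration, odd configuration -/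
abbrev Al (N : ℕ) := Bool × (Site N → Bool) × (Site N → Bool)

/-- the glued configuration -/
def glue {N L : ℕ} (q : ℕ) (hN : N = L * q) (U : Fin L × Fin L → Al N) (v : Site N) : Bool :=
  if par (cellS N q (cellOf q hN v))
      (if bpar (fun k => (U k).1) (cellOf q hN v) then (U (cellOf q hN v)).2.2
        else (U (cellOf q hN v)).2.1) = bpar (fun k => (U k).1) (cellOf q hN v)
  then (if bpar (fun k => (U k).1) (cellOf q hN v) then (U (cellOf q hN v)).2.2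
        else (U (cellOf q hN v)).2.1) v
  else (bpar (fun k => (U k).1) (cellOf q hN v) && crn q v)

/-- probability that the parity in `A` is `b` -/
def Zp (p : ℝ) {V : Type} [Fintype V] [DecidableEq V] (A : Finset V) (b : Bool) : ℝ :=
  Ex (bw p) (fun ω : V → Bool => if par A ω = b then (1 : ℝ) else 0)

/-- weights of the cell variables -/
def wU (p : ℝ) {N L : ℕ} (q : ℕ) (k : Fin L × Fin L) (a : Al N) : ℝ :=
  (1 / 2) * (PW (bw p) a.2.1 * (if par (cellS N q k) a.2.1 = false then 1 else 0)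
      / Zp p (cellS N q k) false)
    * (PW (bw p) a.2.2 * (if par (cellS N q k) a.2.2 = true then 1 else 0)
      / Zp p (cellS N q k) true)

/-- the second box changed when the cell variables of a square of cells are changed -/
def eBox (q cx cy s : ℕ) : NBox :=
  if cy = 0 then ⟨(cx - 1) * q, cx * q, 0, q⟩ else ⟨cx * q, (cx + s) * q, (cy - 1) * q, cy * q⟩

/-- Packet C2a: deterministic properties of the glueing map. -/
def Spec_glue : Prop :=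
  ∀ (N L q : ℕ) (hN : N = L * q), 0 < q →
    (∀ U : Fin L × Fin L → Al N, Even (Nw (glue q hN U))) ∧
    (∀ (cx cy s : ℕ), 0 < s → ∀ U U' : Fin L × Fin L → Al N,
      (∀ k : Fin L × Fin L,
        ¬ (cx ≤ (k.1 : ℕ) ∧ (k.1 : ℕ) < cx + s ∧ cy ≤ (k.2 : ℕ) ∧ (k.2 : ℕ) < cy + s) → U k = U' k) →
      ∀ v : Site N, v ∉ (NBox.mk (cx * q) ((cx + s) * q) (cy * q) ((cy + s) * q)).sites N →
        v ∉ (eBox q cx cy s).sites N → glue q hN U v = glue q hN U' v)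

/-- Packet C2b: the hierarchical oscillation bound. -/
def Spec_oscG : Prop :=
  ∀ (Fn : Set ℂ → Multiset ℂ → ℝ) (C : ℝ), Good Fn C →
  ∀ (m J B q N : ℕ) (h : ℝ) (hN : N = (B * m ^ J) * q), 2 ≤ m → 0 < q → 0 < h →
    Hier (fun (i : ℕ) (k : Fin (B * m ^ J) × Fin (B * m ^ J)) =>
      (((k.1 : ℕ) / m ^ i, (k.2 : ℕ) / m ^ i) : ℕ × ℕ)) m J ∧
    ∀ i ≤ J, ∀ c : ℕ × ℕ, ∀ U U' : Fin (B * m ^ J) × Fin (B * m ^ J) → Al N,
      (∀ k, (((k.1 : ℕ) / m ^ i, (k.2 : ℕ) / m ^ i) : ℕ × ℕ) ≠ c → U k = U' k) →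
      |Gw Fn h (m ^ J * q) B (glue q hN U) - Gw Fn h (m ^ J * q) B (glue q hN U')| ≤
        (21 * C * (q * h)) * (m : ℝ) ^ i

/-- Packet C3: the law of the glued configuration. -/
def Spec_law : Prop :=
  ∀ (E : Type) [AddCommGroup E] [Module ℝ E] (N L q : ℕ) (hN : N = L * q) (p : ℝ), 0 < q → 0 < L →
    0 < p → p < 1 →
    IsWt (fun k : Fin L × Fin L => wU (N := N) p q k) ∧
    ∀ f : (Site N → Bool) → E,
    Ex (fun k : Fin L × Fin L => wU (N := N) p q k) (fun U => f (glue q hN U)) =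
      Ex (bw p) (fun ω : Site N → Bool => if Even (Nw ω) then
        (2 * ∏ k : Fin L × Fin L, (1 / 2) / Zp p (cellS N q k) (par (cellS N q k) ω)) • f ω else 0)

/-- Packet C4: the glued configuration is close to the Bernoulli field conditioned to be even. -/
def Spec_tv : Prop :=
  ∀ (E : Type) [NormedAddCommGroup E] [NormedSpace ℝ E] (N L q : ℕ) (hN : N = L * q) (p : ℝ),
    0 < q → 0 < L → 0 < p → p ≤ 1 / 2 → (L : ℝ) ^ 2 * (1 - 2 * p) ^ (q ^ 2) ≤ 1 / 4 →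
    ∀ f : (Site N → Bool) → E, (∀ ω, ‖f ω‖ ≤ 1) →
      ‖Ex (fun k : Fin L × Fin L => wU (N := N) p q k) (fun U => f (glue q hN U)) - Ee p f‖ ≤
        6 * ((L : ℝ) ^ 2 * (1 - 2 * p) ^ (q ^ 2))

/-- Packet C5: additivity, in probability. -/
def Spec_additive : Prop :=
  ∀ (Fn : Set ℂ → Multiset ℂ → ℝ) (C : ℝ), Good Fn C → ∀ ε : ℝ, 0 < ε →
  ∃ s : ℕ, 1 ≤ s ∧ ∀ (N B rs : ℕ) (h : ℝ), N = B * rs → s ∣ rs → 0 < rs → 0 < B → 0 < h →
    h ^ 2 ≤ 1 / 2 → (((B * s : ℕ) : ℝ)) ^ 2 * (1 - 2 * h ^ 2) ^ ((rs / s) ^ 2) ≤ min (1 / 4) (ε / 12) →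
    ∃ c : ℝ, Ee (h ^ 2) (fun ω : Site N → Bool => min 1 (|Gw Fn h rs B ω - c| / (N * h))) ≤ ε

end

end Pool.Agent.Helper70.Matching
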