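import Pool.Agent.Helper70.Matching.Specs3

/-! Packet statements, fourth batch (variance lower bound, Lindeberg, de-Poissonization, rounding).
helper70. -/

set_option autoImplicit false
open Finset Filter Topology MeasureTheory ProbabilityTheory

namespace Pool.Agent.Helper70.Matching

noncomputable section

/-! ### Variance lower bound -/

/-- Packet C6a: probability of the event of exactly one point in each `S i` and none elsewhere in `D`. -/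
def Spec_probLower : Prop :=
  ∀ (V : Type) [Fintype V] [DecidableEq V] (p : ℝ), 0 < p → p ≤ 1 / 2 →
  ∀ (ι : Type) [Fintype ι] [DecidableEq ι] (D : Finset V) (S : ι → Finset V),
    (∀ i, S i ⊆ D) → (∀ i j, i ≠ j → Disjoint (S i) (S j)) →
    (∏ i, (((S i).card : ℝ) * p)) * (1 - p) ^ D.card ≤
      Ex (bw p) (fun ω : V → Bool =>
        if (∀ i, cnt (S i) ω = 1) ∧ cnt D ω = Fintype.card ι then (1 : ℝ) else 0)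

/-- Packet C6b: two events on `D` with separated values force variance of the projection on `D`. -/
def Spec_twoEvent : Prop :=
  ∀ (K α : Type) [Fintype K] [DecidableEq K] [Fintype α] (w : K → α → ℝ), IsWt w →
  ∀ (D : Finset K) (f : (K → α) → ℝ) (a b : (K → α) → Prop) [DecidablePred a] [DecidablePred b]
    (π : ℝ), 0 ≤ π → DependsOn a (D : Set K) → DependsOn b (D : Set K) →
    π ≤ Ex w (fun u => if a u then (1 : ℝ) else 0) → π ≤ Ex w (fun u => if b u then (1 : ℝ) else 0) →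
    (∀ u u', a u → b u' → (∀ k, k ∉ D → u k = u' k) → f u' + 1 ≤ f u) →
    π / 4 ≤ Vr w (PE w D f)

/-- little square number `(a,b)` of side `g1` sites, counted from the corner `(X0,Y0)` -/
def lsq (X0 Y0 g1 a b : ℕ) : NBox :=
  ⟨X0 + a * g1, X0 + (a + 1) * g1, Y0 + b * g1, Y0 + (b + 1) * g1⟩

/-- Packet C6c: spread points cost more than clustered points. -/
def Spec_gap : Prop :=
  ∀ (Fn : Set ℂ → Multiset ℂ → ℝ) (C : ℝ), Good Fn C →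
  ∃ K G : ℕ, 1 ≤ K ∧ 2 ≤ G ∧
  ∀ (N B rs g1 X0 Y0 : ℕ) (h : ℝ) (j : Fin B × Fin B), N = B * rs → 0 < g1 → 0 < h →
    1 ≤ ((K * G * g1 : ℕ) : ℝ) * h →
    (NBox.mk X0 (X0 + K * G * g1) Y0 (Y0 + K * G * g1)).sub (blk rs j) →
    ∀ ω ω' : Site N → Bool,
    (∀ v, v ∉ (NBox.mk X0 (X0 + K * G * g1) Y0 (Y0 + K * G * g1)).sites N → ω v = ω' v) →
    (∀ a b : Fin K, cnt ((lsq X0 Y0 g1 (G * a + G / 2) (G * b + G / 2)).sites N) ω = 1) →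
    cnt ((NBox.mk X0 (X0 + K * G * g1) Y0 (Y0 + K * G * g1)).sites N) ω = K * K →
    (∀ a b : Fin K, cnt ((lsq X0 Y0 g1 a b).sites N) ω' = 1) →
    cnt ((NBox.mk X0 (X0 + K * G * g1) Y0 (Y0 + K * G * g1)).sites N) ω' = K * K →
    Fj Fn h rs j ω' + 1 ≤ Fj Fn h rs j ω

/-- Packet C6: lower bound for the variance of a block, uniformly in `α`. -/
def Spec_varLower : Prop :=
  ∀ (Fn : Set ℂ → Multiset ℂ → ℝ) (C : ℝ), Good Fn C →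
  ∃ (K₁ : ℕ) (c : ℝ), 1 ≤ K₁ ∧ 0 < c ∧
  ∀ (N B rs κ g : ℕ) (h : ℝ), N = B * rs → rs = κ * g → K₁ ∣ g → 0 < g → 0 < h →
    1 ≤ (g : ℝ) * h → (g : ℝ) * h ≤ 2 → h ^ 2 ≤ 1 / 2 → ∀ (j : Fin B × Fin B) (α : ℝ),
    c * (κ : ℝ) ^ 2 ≤
      Vr (bw (h ^ 2)) (fun ω : Site N → Bool => Fj Fn h rs j ω - α * (Nj rs j ω : ℝ))

/-! ### Moments and the Lindeberg argument -/

/-- Packet C7: moments of one block. -/
def Spec_moments : Prop :=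
  ∀ (Fn : Set ℂ → Multiset ℂ → ℝ) (C : ℝ), Good Fn C →
  ∃ C' : ℝ, 0 < C' ∧ ∀ (N B rs : ℕ) (h : ℝ) (j : Fin B × Fin B), N = B * rs → 0 < h →
    1 ≤ (rs : ℝ) * h → h ^ 2 ≤ 1 / 2 →
    (∀ α : ℝ, Ex (bw (h ^ 2)) (fun ω : Site N → Bool =>
      |(Fj Fn h rs j ω - α * (Nj rs j ω : ℝ)) -
        Ex (bw (h ^ 2)) (fun ω : Site N → Bool => Fj Fn h rs j ω - α * (Nj rs j ω : ℝ))| ^ 3)
      ≤ C' * (rs * h + |α|) ^ 3 * (rs * h) ^ 6) ∧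
    Ex (bw (h ^ 2)) (fun ω : Site N → Bool => |(Nj rs j ω : ℝ) - (rs * h) ^ 2| ^ 3) ≤ C' * (rs * h) ^ 6 ∧
    Ex (bw (h ^ 2)) (fun ω : Site N → Bool => (Nj rs j ω : ℝ)) = (rs * h) ^ 2 ∧
    Vr (bw (h ^ 2)) (fun ω : Site N → Bool => (Nj rs j ω : ℝ)) = (rs * h) ^ 2 * (1 - h ^ 2) ∧
    Vr (bw (h ^ 2)) (fun ω : Site N → Bool => Fj Fn h rs j ω) ≤ C' * (rs * h) ^ 6

/-- Packet C8: quantitative CLT for independent blocks, conditioned on an even total number. -/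
def Spec_blockCLT : Prop :=
  ∀ (V ι : Type) [Fintype V] [DecidableEq V] [Fintype ι] [DecidableEq ι] [Nonempty ι] (p : ℝ),
    0 < p → p ≤ 1 / 2 → ∀ (A : ι → Finset V), (∀ i j, i ≠ j → Disjoint (A i) (A j)) →
    (∀ v, ∃ i, v ∈ A i) → (∀ i, (1 - 2 * p) ^ (A i).card ≤ 1 / 4) →
    ∀ (x : ι → (V → Bool) → ℝ), (∀ i, DependsOn (x i) (A i : Set V)) → (∀ i, Ex (bw p) (x i) = 0) →
    ∑ i, Ex (bw p) (fun ω => |x i ω| ^ 3) ≤ 1 / 64 →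
    ‖(Ex (bw p) (fun ω : V → Bool => if Even (cnt univ ω) then (1 : ℝ) else 0))⁻¹ •
        Ex (bw p) (fun ω : V → Bool => if Even (cnt univ ω) then
          Complex.exp (Complex.I * ((∑ i, x i ω : ℝ) : ℂ)) else 0)
      - Complex.exp (-((∑ i, Ex (bw p) (fun ω => (x i ω) ^ 2) : ℝ) : ℂ) / 2)‖
    ≤ 10 * ((∑ i, Ex (bw p) (fun ω => |x i ω| ^ 3)) * (1 + ∑ i, Ex (bw p) (fun ω => (x i ω) ^ 2))
        + (1 / 2) ^ (Fintype.card ι))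

/-! ### The asymptotic statements -/

/-- covariance -/
def Cv {K α : Type} [Fintype K] [DecidableEq K] [Fintype α] (w : K → α → ℝ)
    (f g : (K → α) → ℝ) : ℝ := Ex w (fun u => f u * g u) - Ex w f * Ex w g

/-- regression coefficient of `S` on the number of points -/
def alph (Fn : Set ℂ → Multiset ℂ → ℝ) (n : ℕ) : ℝ :=
  (∑ j : Fin (Bn n) × Fin (Bn n), Cv (bw (hn n ^ 2)) (fun ω : Site (NN n) → Bool => Fj Fn (hn n) (rsn n) j ω)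
      (fun ω => (Nj (rsn n) j ω : ℝ))) /
    (∑ j : Fin (Bn n) × Fin (Bn n), Vr (bw (hn n ^ 2)) (fun ω : Site (NN n) → Bool => (Nj (rsn n) j ω : ℝ)))

/-- residual variance -/
def bsq (Fn : Set ℂ → Multiset ℂ → ℝ) (n : ℕ) : ℝ :=
  ∑ j : Fin (Bn n) × Fin (Bn n), Vr (bw (hn n ^ 2))
    (fun ω : Site (NN n) → Bool => Fj Fn (hn n) (rsn n) j ω - alph Fn n * (Nj (rsn n) j ω : ℝ))

/-- residual standard deviation -/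
def bb (Fn : Set ℂ → Multiset ℂ → ℝ) (n : ℕ) : ℝ := Real.sqrt (bsq Fn n)

/-- block side -/
def rr (n : ℕ) : ℝ := rsn n * hn n

/-- Packet C9: the asymptotics of the parameters. -/
def Spec_asymp : Prop :=
  Tendsto Bn atTop atTop ∧ Tendsto rr atTop atTop ∧
  Tendsto (fun n : ℕ => rr n ^ 9 / Bn n) atTop (𝓝 0) ∧
  (∀ c : ℝ, 0 < c → Tendsto (fun n : ℕ => (n : ℝ) * Real.exp (-(c * rr n ^ 2))) atTop (𝓝 0)) ∧
  (∀ᶠ n in atTop, 1 ≤ ((n.factorial : ℕ) : ℝ) * hn n ∧ ((n.factorial : ℕ) : ℝ) * hn n ≤ 2) ∧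
  (∀ᶠ n in atTop, 0 < hn n ∧ hn n ^ 2 ≤ 1 / 2 ∧ 0 < NN n ∧ (NN n : ℝ) * hn n = Real.sqrt n ∧
    (Bn n : ℝ) * rr n = Real.sqrt n ∧ 0 < Bn n ∧ 0 < kn n ∧ n ^ 4 ≤ NN n ∧
    (n : ℝ) / 4 ≤ ((Bn n * kn n : ℕ) : ℝ) ^ 2 ∧ ((Bn n * kn n : ℕ) : ℝ) ^ 2 ≤ n)

/-- Packet C10: additivity along the sequence. -/
def Spec_addSeq : Prop :=
  ∀ (Fn : Set ℂ → Multiset ℂ → ℝ) (C : ℝ), Good Fn C → ∀ ε : ℝ, 0 < ε → ∀ᶠ n : ℕ in atTop,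
    ∃ c : ℝ, Ee (hn n ^ 2) (fun ω : Site (NN n) → Bool =>
      min 1 (|Gw Fn (hn n) (rsn n) (Bn n) ω - c| / Real.sqrt n)) ≤ ε

/-- Packet C11: lower bound of the residual variance. -/
def Spec_bbLower : Prop :=
  ∀ (Fn : Set ℂ → Multiset ℂ → ℝ) (C : ℝ), Good Fn C → ∃ c : ℝ, 0 < c ∧ ∀ᶠ n : ℕ in atTop,
    c * Real.sqrt n ≤ bb Fn n

/-- Packet C12: joint CLT for the sum of the block functionals and the number of points. -/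
def Spec_sumJCLT : Prop :=
  ∀ (Fn : Set ℂ → Multiset ℂ → ℝ) (C : ℝ), Good Fn C → ∀ T ε : ℝ, 0 < T → 0 < ε →
  ∀ᶠ n : ℕ in atTop, ∀ t u : ℝ, |t| ≤ T → |u| ≤ T →
    ‖Ee (hn n ^ 2) (fun ω : Site (NN n) → Bool => Complex.exp (Complex.I *
        ((t * (Sw Fn (hn n) (rsn n) (Bn n) ω
            - Ex (bw (hn n ^ 2)) (fun ω : Site (NN n) → Bool => Sw Fn (hn n) (rsn n) (Bn n) ω)
            - alph Fn n * ((Nw ω : ℝ) - n)) / bb Fn n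
          + u * ((Nw ω : ℝ) - n) / Real.sqrt n : ℝ) : ℂ)))
      - Complex.exp (-((t ^ 2 + u ^ 2) / 2 : ℝ))‖ ≤ ε

/-- Joint CLT for the functional and the number of points. -/
def Spec_JCLT : Prop :=
  ∀ (Fn : Set ℂ → Multiset ℂ → ℝ) (C : ℝ), Good Fn C → ∃ a : ℕ → ℝ, ∀ T ε : ℝ, 0 < T → 0 < ε →
  ∀ᶠ n : ℕ in atTop, ∀ t u : ℝ, |t| ≤ T → |u| ≤ T →
    ‖Ee (hn n ^ 2) (fun ω : Site (NN n) → Bool => Complex.exp (Complex.I *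
        ((t * (Mw Fn (hn n) ω - a n - alph Fn n * ((Nw ω : ℝ) - n)) / bb Fn n
          + u * ((Nw ω : ℝ) - n) / Real.sqrt n : ℝ) : ℂ)))
      - Complex.exp (-((t ^ 2 + u ^ 2) / 2 : ℝ))‖ ≤ ε

/-! ### De-Poissonization -/

/-- Packet D1: uniform `k`-subsets against uniform `k`-tuples. -/
def Spec_subset : Prop :=
  ∀ (N : ℕ) (p Gm : ℝ), 0 < N → 0 ≤ p → p ≤ 1 → ∀ (φ : Multiset (Site N) → ℂ) (g : ℕ → ℂ),
    (∀ m, ‖φ m‖ ≤ 1) → (∀ k, ‖g k‖ ≤ Gm) →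
    ‖Ex (bw p) (fun ω : Site N → Bool =>
        g (Nw ω) * φ ((univ.filter (fun v => ω v = true)).val))
      - Ex (bw p) (fun ω : Site N → Bool => g (Nw ω) * Av N (Nw ω) φ)‖
    ≤ Gm * Ex (bw p) (fun ω : Site N → Bool => (Nw ω : ℝ) ^ 2) / (N : ℝ) ^ 2

/-- Packet D2: pair insertion. -/
def Spec_pair : Prop :=
  ∀ (N ν g : ℕ), N = ν * g → 0 < N → ∀ (φ : Multiset (Site N) → ℂ) (η : ℝ), (∀ m, ‖φ m‖ ≤ 1) →
    (∀ (m : Multiset (Site N)), Even (Multiset.card m) → ∀ y y' : Site N,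
      (y.1 : ℕ) / g = (y'.1 : ℕ) / g → (y.2 : ℕ) / g = (y'.2 : ℕ) / g →
      ‖φ (y ::ₘ y' ::ₘ m) - φ m‖ ≤ η) →
    ∀ k : ℕ, Even k → ‖Av N (k + 2) φ - Av N k φ‖ ≤ 2 * ν / (k + 1) + η

/-- Packet D3a: the regression coefficient is bounded. -/
def Spec_boundA : Prop :=
  ∀ (s : ℕ → Finset ℕ) (π X : ℕ → ℕ → ℝ) (A : ℕ → ℝ) (ψ : ℕ → ℝ → ℕ → ℂ) (ψ0 : ℕ → ℝ → ℂ) (C : ℝ),
    (∀ n k, 0 ≤ π n k) → (∀ᶠ n in atTop, ∑ k ∈ s n, π n k = 1) → (∀ n t k, ‖ψ n t k‖ ≤ 1) →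
    (∀ n t, ‖ψ0 n t‖ ≤ 1) → (∀ᶠ n in atTop, ∀ k ∈ s n, ψ n 0 k = 1) →
    (∀ T ε : ℝ, 0 < T → 0 < ε → ∀ᶠ n in atTop, ∀ t u : ℝ, |t| ≤ T → |u| ≤ T →
      ‖∑ k ∈ s n, (π n k : ℂ) * (Complex.exp (Complex.I * (((u - t * A n) * X n k : ℝ) : ℂ)) * ψ n t k)
        - Complex.exp (-((t ^ 2 + u ^ 2) / 2 : ℝ))‖ ≤ ε) →
    (∀ᶠ n in atTop, ∀ t : ℝ, ∀ k ∈ s n, π n k ≠ 0 →
      ‖ψ n t k - ψ0 n t‖ ≤ C * (1 + |t|) * |X n k|) →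
    ∃ T₀ : ℝ, ∀ᶠ n in atTop, |A n| ≤ T₀

/-- Packet D3: the abstract de-Poissonization argument. -/
def Spec_depoisson : Prop :=
  ∀ (s : ℕ → Finset ℕ) (π X : ℕ → ℕ → ℝ) (A : ℕ → ℝ) (ψ : ℕ → ℝ → ℕ → ℂ) (ψ0 : ℕ → ℝ → ℂ) (C : ℝ),
    (∀ n k, 0 ≤ π n k) → (∀ᶠ n in atTop, ∑ k ∈ s n, π n k = 1) → (∀ n t k, ‖ψ n t k‖ ≤ 1) →
    (∀ n t, ‖ψ0 n t‖ ≤ 1) → (∀ᶠ n in atTop, ∀ k ∈ s n, ψ n 0 k = 1) →
    (∀ T ε : ℝ, 0 < T → 0 < ε → ∀ᶠ n in atTop, ∀ t u : ℝ, |t| ≤ T → |u| ≤ T →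
      ‖∑ k ∈ s n, (π n k : ℂ) * (Complex.exp (Complex.I * (((u - t * A n) * X n k : ℝ) : ℂ)) * ψ n t k)
        - Complex.exp (-((t ^ 2 + u ^ 2) / 2 : ℝ))‖ ≤ ε) →
    (∀ᶠ n in atTop, ∀ t : ℝ, ∀ k ∈ s n, π n k ≠ 0 →
      ‖ψ n t k - ψ0 n t‖ ≤ C * (1 + |t|) * |X n k|) →
    ∀ t : ℝ, Tendsto (fun n => ψ0 n t) atTop (𝓝 (Complex.exp (-(t ^ 2 / 2 : ℝ))))

/-- rounding a point of the unit square to a site -/
def toSite (N : ℕ) (hN : 0 < N) (x : ℝ × ℝ) : Site N :=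
  (⟨min ⌊N * x.1⌋₊ (N - 1), by omega⟩, ⟨min ⌊N * x.2⌋₊ (N - 1), by omega⟩)

/-- Packet D4: rounded i.i.d. uniform points are i.i.d. uniform sites. -/
def Spec_round : Prop :=
  (∀ (Ω : Type) [MeasurableSpace Ω] (P : Measure Ω) [IsProbabilityMeasure P] (X : ℕ → Ω → ℝ × ℝ),
    (∀ i, Measurable (X i)) → iIndepFun X P →
    (∀ i, P.map (X i) = volume.restrict (Set.Icc (0:ℝ) 1 ×ˢ Set.Icc (0:ℝ) 1)) →
    ∀ (N : ℕ) (hN : 0 < N) (k : ℕ) (φ : Multiset (Site N) → ℂ),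
      ∫ ω, φ ((univ : Finset (Fin k)).val.map (fun i => toSite N hN (X i ω))) ∂P = Av N k φ) ∧
  (∀ (N : ℕ) (hN : 0 < N) (h : ℝ) (x : ℝ × ℝ), 0 < h → 0 ≤ x.1 → x.1 ≤ 1 → 0 ≤ x.2 → x.2 ≤ 1 →
    dist ((N * h : ℝ) • (⟨x.1, x.2⟩ : ℂ)) (pos h (toSite N hN x)) ≤ h)

/-- Scaling of the functional by a positive factor. -/
def Spec_scale : Prop :=
  ∀ (P : Multiset ℂ) (r : ℝ), 0 < r → MF ∅ (P.map (fun z => (r : ℝ) • z)) = r * MF ∅ P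

end

end Pool.Agent.Helper70.Matching
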